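import Mathlib

/-!
# A non-monotone traveling wave of the gene drive system (MP_b6986b_an)

Parameters `s = (1 + h²)/2`, `r = 4`, `c = h/8`, `h = 1/10000`. In the scaled variables
`P(ξ) = th · z(h ξ)`, `N(ξ) = 1 - h² w(h ξ)`, `v = z'`, `q = w'` the wave equations are
`x' = G x` for `x = (z, v, w, q)`.
-/

open Set Filter Topology

namespace Q94.GD

noncomputable section

/-- the small parameter -/
def h : ℝ := 1 / 10000

/-- `θ = (2s-1)/s` for `s = (1+h²)/2` -/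
def th : ℝ := 2 * h ^ 2 / (1 + h ^ 2)

/-- clamp to `[a,b]` -/
def cl (a b x : ℝ) : ℝ := max a (min b x)

def A (w q : ℝ) : ℝ := 2 * h ^ 2 * q / (1 - h ^ 2 * w)

def B (z w : ℝ) : ℝ := (1 + 4 * h ^ 2 * w) * z * (1 - th * z) * (z - 1)

def S (z w : ℝ) : ℝ := (1 - h ^ 2 * w) * (4 * w - z * (2 - th * z) * (1 + 4 * h ^ 2 * w))

/-- the phase space, coordinates `z, v, w, q` -/
abbrev E := Fin 4 → ℝ

/-- the vector field of the wave equations -/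
def G (x : E) : E :=
  ![x 1, -x 1 / 8 + A (x 2) (x 3) * x 1 - B (x 0) (x 2), x 3,
    -x 3 / 8 + S (x 0) (x 2) / h ^ 2]

/-- the projection of the phase space to the box `[0,2]×[-2,2]×[0,2]×[-36/h,36/h]` -/
def box (x : E) : E :=
  ![cl 0 2 (x 0), cl (-2) 2 (x 1), cl 0 2 (x 2), cl (-(36 / h)) (36 / h) (x 3)]

/-- the clamped vector field -/
def F (x : E) : E := G (box x)

/-- complete curves of the clamped field -/
def Sol (x : ℝ → E) : Prop := ∀ t, HasDerivAt x (F (x t)) t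

/-- the Lyapunov function -/
def V (z v : ℝ) : ℝ := v ^ 2 / 2 + z ^ 3 / 3 - z ^ 2 / 2 + z * v / 24

/-- the lower barrier for the speed -/
def phi (z : ℝ) : ℝ := z * (3 / 2 - z) / 2

/-- the trap -/
def Trap (x : E) : Prop := 0 < x 0 ∧ V (x 0) (x 1) < 0

def ExitUp (x : ℝ → E) : Prop := ∃ t, 0 < t ∧ x t 0 < x t 2 ∧ ∀ τ ∈ Icc 0 t, 0 < x τ 2

def ExitDown (x : ℝ → E) : Prop := ∃ t, 0 < t ∧ x t 2 < 0 ∧ ∀ τ ∈ Icc 0 t, x τ 2 < x τ 0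

/-- initial data of the shooting -/
def Start (ε q : ℝ) : E := ![ε, 3 * ε / 4, ε / 2, q]

/-! ## Statements -/

/-- the clamped field is bounded and Lipschitz -/
def J1a : Prop := ∃ K M : NNReal, LipschitzWith K F ∧ ∀ x, ‖F x‖ ≤ M

/-- the flow -/
def J1b : Prop := ∃ φ : ℝ → E → E, (∀ x, φ 0 x = x) ∧ (∀ x, Sol (fun t => φ t x)) ∧
  (∀ s t x, φ (s + t) x = φ s (φ t x)) ∧ Continuous (fun p : ℝ × E => φ p.1 p.2)

/-- elementary bounds in the (closed) trap -/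
def J2 : Prop := ∀ z v : ℝ, 0 ≤ z → V z v ≤ 0 → z ≤ 151 / 100 ∧ v ≤ z ∧ -(11 / 10 * z) ≤ v

/-- the trap is forward invariant -/
def J3 : Prop := ∀ x, Sol x → Trap (x 0) → ∀ t, 0 ≤ t → Trap (x t)

/-- the speed stays above the barrier as long as `z ≤ 1` -/
def J4 : Prop := ∀ x, Sol x → Trap (x 0) → phi (x 0 0) < x 0 1 → ∀ T, 0 ≤ T →
  (∀ t ∈ Icc 0 T, x t 0 ≤ 1) → ∀ t ∈ Icc 0 T, phi (x t 0) < x t 1

/-- bound of `q` in the strip -/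
def J5 : Prop := ∀ x, Sol x → |x 0 3| < 12 / h → ∀ T, 0 ≤ T →
  (∀ t ∈ Icc 0 T, 0 ≤ x t 2 ∧ x t 2 ≤ 2) → ∀ t ∈ Icc 0 T, |x t 3| < 36 / h

/-- exits are transversal: a curve which does not exit stays inside -/
def J6 : Prop := ∀ x, Sol x → Trap (x 0) → |x 0 3| < 12 / h → 0 < x 0 2 → x 0 2 < x 0 0 →
  ¬ ExitUp x → ¬ ExitDown x → ∀ t, 0 ≤ t → 0 < x t 2 ∧ x t 2 < x t 0

/-- forced exits for large `|q|` -/
def J7 : Prop := ∀ ε, 0 < ε → ε ≤ 1 / 2 → ∀ x, Sol x →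
  (x 0 = Start ε (11 / h) → ExitUp x) ∧ (x 0 = Start ε (-(11 / h)) → ExitDown x)

/-- the curves found by shooting -/
def Good (ε : ℝ) (x : ℝ → E) : Prop := Sol x ∧ (∃ q, |q| ≤ 11 / h ∧ x 0 = Start ε q) ∧
  ∀ t, 0 ≤ t → Trap (x t) ∧ 0 < x t 2 ∧ x t 2 < x t 0 ∧ |x t 3| < 36 / h

/-- shooting -/
def J8 : Prop := ∀ ε, 0 < ε → ε ≤ 1 / 2 → ∃ x, Good ε x

/-- hitting time of `z = 1` -/
def J9 : Prop := ∀ ε x, 0 < ε → ε ≤ 1 / 2 → Good ε x →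
  ∃ T, 0 ≤ T ∧ Real.log (1 / ε) ≤ T ∧ x T 0 = 1 ∧
    ∀ t ∈ Icc 0 T, x t 0 ≤ 1 ∧ phi (x t 0) ≤ x t 1

/-- the properties of the limit curve -/
def Lim (x : ℝ → E) : Prop := Sol x ∧ x 0 0 = 1 ∧
  (∀ t, 0 ≤ x t 0 ∧ V (x t 0) (x t 1) ≤ 0 ∧ 0 ≤ x t 2 ∧ x t 2 ≤ x t 0 ∧ |x t 3| ≤ 36 / h) ∧
  ∀ t ≤ 0, x t 0 ≤ 1 ∧ phi (x t 0) ≤ x t 1

/-- the limit curve -/
def J10 : Prop := ∃ x, Lim x

/-- on the limit curve the clamps are not active -/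
def J11a : Prop := ∀ x, Lim x → ∀ t, F (x t) = G (x t)

/-- behaviour at `-∞` -/
def J11b : Prop := ∀ x, Lim x → Tendsto (fun t => x t 0) atBot (𝓝 0) ∧
  Tendsto (fun t => x t 2) atBot (𝓝 0)

/-- not monotone -/
def J11c : Prop := ∀ x, Lim x → ¬ Monotone (fun t => x t 0)

end

/-! ## The wave -/

/-- `(p, n)` is a classical solution on `ℝ × ℝ` of the gene drive system. -/
structure IsClassical (s r : ℝ) (p n : ℝ → ℝ → ℝ) : Prop where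
  smooth_p : ContDiff ℝ 2 (fun y : ℝ × ℝ => p y.1 y.2)
  smooth_n : ContDiff ℝ 2 (fun y : ℝ × ℝ => n y.1 y.2)
  eq_p : ∀ t x, deriv (fun τ => p τ x) t - deriv (deriv (p t)) x
      - 2 * deriv (fun y => Real.log (n t y)) x * deriv (p t) x
    = (r * (1 - n t x) + 1) * s * p t x * (1 - p t x) * (p t x - (2 * s - 1) / s)
  eq_n : ∀ t x, deriv (fun τ => n τ x) t - deriv (deriv (n t)) x
    = n t x * ((1 - s + s * (1 - p t x) ^ 2) * (r * (1 - n t x) + 1) - 1)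

/-- `(P, N)` is the profile of a traveling wave with speed `c`. -/
structure IsTravelingWave (s r c : ℝ) (P N : ℝ → ℝ) : Prop where
  classical : IsClassical s r (fun t x => P (x - c * t)) (fun t x => N (x - c * t))
  bounded_P : ∃ C, ∀ ξ, |P ξ| ≤ C
  bounded_N : ∃ C, ∀ ξ, |N ξ| ≤ C
  nonneg : ∀ ξ, 0 ≤ P ξ
  pos : ∀ ξ, 0 < N ξ
  lim_P : Tendsto P atBot (𝓝 0)
  lim_N : Tendsto N atBot (𝓝 1)

/-- from the limit curve to the wave -/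
def J12 : Prop := ∀ x, Lim x → (∀ t, F (x t) = G (x t)) →
  (Tendsto (fun t => x t 0) atBot (𝓝 0) ∧ Tendsto (fun t => x t 2) atBot (𝓝 0)) →
  IsTravelingWave ((1 + h ^ 2) / 2) 4 (h / 8) (fun ξ => th * x (h * ξ) 0)
    (fun ξ => 1 - h ^ 2 * x (h * ξ) 2)

end Q94.GD
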