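import Mathlib
import Pool.Agent.Q94.GD.Stm
import Pool.Agent.Helper197.Ode

/-!
# Job GD-1: the clamped field is bounded and Lipschitz; its flow
-/

set_option autoImplicit false
set_option linter.unusedVariables false

open Set Filter Topology

namespace Q94.GD

/-- bounded Lipschitz functions -/
def BL (f : E → ℝ) : Prop := (∃ K, 0 ≤ K ∧ ∀ x y, |f x - f y| ≤ K * ‖x - y‖) ∧ ∃ M, ∀ x, |f x| ≤ M

theorem BL.const (c : ℝ) : BL fun _ => c :=
  ⟨⟨0, le_rfl, fun x y => by simp⟩, ⟨|c|, fun _ => le_rfl⟩⟩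

theorem BL.add {f g : E → ℝ} (hf : BL f) (hg : BL g) : BL fun x => f x + g x := by
  obtain ⟨⟨K, hK, h1⟩, M, h2⟩ := hf
  obtain ⟨⟨L, hL, h3⟩, N, h4⟩ := hg
  refine ⟨⟨K + L, by linarith, fun x y => ?_⟩, M + N, fun x => ?_⟩
  · have e : f x + g x - (f y + g y) = (f x - f y) + (g x - g y) := by ring
    rw [e, add_mul]
    exact (abs_add_le _ _).trans (add_le_add (h1 x y) (h3 x y))
  · exact (abs_add_le _ _).trans (add_le_add (h2 x) (h4 x))

theorem BL.mul {f g : E → ℝ} (hf : BL f) (hg : BL g) : BL fun x => f x * g x := by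
  obtain ⟨⟨K, hK, h1⟩, M, h2⟩ := hf
  obtain ⟨⟨L, hL, h3⟩, N, h4⟩ := hg
  have hM : 0 ≤ M := (abs_nonneg _).trans (h2 0)
  have hN : 0 ≤ N := (abs_nonneg _).trans (h4 0)
  refine ⟨⟨M * L + N * K, by positivity, fun x y => ?_⟩, M * N, fun x => ?_⟩
  · have e : f x * g x - f y * g y = f x * (g x - g y) + g y * (f x - f y) := by ring
    rw [e]
    refine (abs_add_le _ _).trans ?_
    rw [abs_mul, abs_mul, add_mul, mul_assoc, mul_assoc]
    exact add_le_add (mul_le_mul (h2 x) (h3 x y) (abs_nonneg _) hM)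
      (mul_le_mul (h4 y) (h1 x y) (abs_nonneg _) hN)
  · rw [abs_mul]
    exact mul_le_mul (h2 x) (h4 x) (abs_nonneg _) hM

theorem BL.neg {f : E → ℝ} (hf : BL f) : BL fun x => -f x := by
  have := (BL.const (-1)).mul hf
  simpa using this

theorem BL.sub {f g : E → ℝ} (hf : BL f) (hg : BL g) : BL fun x => f x - g x := by
  have := hf.add hg.neg
  simpa [sub_eq_add_neg] using this

theorem BL.div_const {f : E → ℝ} (hf : BL f) (c : ℝ) : BL fun x => f x / c := by
  have := hf.mul (BL.const c⁻¹)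
  simpa [div_eq_mul_inv] using this

theorem BL.inv {f : E → ℝ} (hf : BL f) (h : ∀ x, 1 / 2 ≤ f x) : BL fun x => (f x)⁻¹ := by
  obtain ⟨⟨K, hK, h1⟩, M, h2⟩ := hf
  have hi : ∀ x, |(f x)⁻¹| ≤ 2 := by
    intro x
    have := h x
    rw [abs_of_pos (by positivity), inv_le_comm₀ (by linarith) (by norm_num)]
    linarith
  refine ⟨⟨4 * K, by linarith, fun x y => ?_⟩, 2, hi⟩
  have hx := h x
  have hy := h y
  have e : (f x)⁻¹ - (f y)⁻¹ = (f x)⁻¹ * (f y)⁻¹ * (f y - f x) := by
    field_simp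
  rw [e, abs_mul, abs_mul, abs_sub_comm]
  calc |(f x)⁻¹| * |(f y)⁻¹| * |f x - f y| ≤ 2 * 2 * (K * ‖x - y‖) := by
        apply mul_le_mul
        · exact mul_le_mul (hi x) (hi y) (abs_nonneg _) (by norm_num)
        · exact h1 x y
        · exact abs_nonneg _
        · norm_num
    _ = 4 * K * ‖x - y‖ := by ring

theorem BL.cl {a b : ℝ} (hab : a ≤ b) (i : Fin 4) : BL fun x => cl a b (x i) := by
  refine ⟨⟨1, by norm_num, fun x y => ?_⟩, max |a| |b|, fun x => ?_⟩
  · rw [one_mul]
    unfold Q94.GD.cl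
    have h1 : |max a (min b (x i)) - max a (min b (y i))| ≤ |min b (x i) - min b (y i)| := by
      have := abs_max_sub_max_le_max a (min b (x i)) a (min b (y i))
      rw [sub_self, abs_zero] at this
      exact this.trans (max_le (abs_nonneg _) le_rfl)
    have h2 : |min b (x i) - min b (y i)| ≤ |x i - y i| := by
      have := abs_min_sub_min_le_max b (x i) b (y i)
      rw [sub_self, abs_zero] at this
      exact this.trans (max_le (abs_nonneg _) le_rfl)
    refine (h1.trans h2).trans ?_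
    have := norm_le_pi_norm (x - y) i
    rwa [Pi.sub_apply, Real.norm_eq_abs] at this
  · have h1 : a ≤ Q94.GD.cl a b (x i) := le_max_left _ _
    have h2 : Q94.GD.cl a b (x i) ≤ b := max_le hab (min_le_left _ _)
    rw [abs_le]
    constructor
    · have := neg_abs_le a
      have := le_max_left |a| |b|
      linarith
    · have := le_abs_self b
      have := le_max_right |a| |b|
      linarith

theorem j1a : J1a := by
  have hh : h = 1 / 10000 := rfl
  have h36 : (0 : ℝ) ≤ 36 / h := by rw [hh]; norm_num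
  have z := BL.cl (a := 0) (b := 2) (by norm_num) 0
  have v := BL.cl (a := -2) (b := 2) (by norm_num) 1
  have w := BL.cl (a := 0) (b := 2) (by norm_num) 2
  have q := BL.cl (a := -(36 / h)) (b := 36 / h) (by linarith) 3
  have one := BL.const 1
  have hw : BL fun x => 1 - h ^ 2 * cl 0 2 (x 2) := one.sub ((BL.const (h ^ 2)).mul w)
  have hwi : BL fun x => (1 - h ^ 2 * cl 0 2 (x 2))⁻¹ := by
    apply hw.inv
    intro x
    have h2 : cl 0 2 (x 2) ≤ 2 := max_le (by norm_num) (min_le_left _ _)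
    rw [hh]
    nlinarith
  have h4w : BL fun x => 1 + 4 * h ^ 2 * cl 0 2 (x 2) := one.add ((BL.const (4 * h ^ 2)).mul w)
  have hth : BL fun x => th * cl 0 2 (x 0) := (BL.const th).mul z
  have hF : ∀ i, BL fun x => F x i := by
    intro i
    fin_cases i
    · exact v
    · have e : (fun x => F x 1) = fun x => -cl (-2) 2 (x 1) / 8 +
          (2 * h ^ 2 * cl (-(36 / h)) (36 / h) (x 3) * (1 - h ^ 2 * cl 0 2 (x 2))⁻¹) *
            cl (-2) 2 (x 1) -
          (1 + 4 * h ^ 2 * cl 0 2 (x 2)) * cl 0 2 (x 0) * (1 - th * cl 0 2 (x 0)) *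
            (cl 0 2 (x 0) - 1) := by
        funext x
        show -cl (-2) 2 (x 1) / 8 + A (cl 0 2 (x 2)) (cl (-(36 / h)) (36 / h) (x 3)) *
          cl (-2) 2 (x 1) - B (cl 0 2 (x 0)) (cl 0 2 (x 2)) = _
        unfold A B
        rw [div_eq_mul_inv (2 * h ^ 2 * cl (-(36 / h)) (36 / h) (x 3))]
      show BL fun x => F x 1
      rw [e]
      exact ((v.neg.div_const 8).add ((((BL.const (2 * h ^ 2)).mul q).mul hwi).mul v)).sub
        (((h4w.mul z).mul (one.sub hth)).mul (z.sub one))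
    · exact q
    · have e : (fun x => F x 3) = fun x => -cl (-(36 / h)) (36 / h) (x 3) / 8 +
          ((1 - h ^ 2 * cl 0 2 (x 2)) * (4 * cl 0 2 (x 2) - cl 0 2 (x 0) *
            (2 - th * cl 0 2 (x 0)) * (1 + 4 * h ^ 2 * cl 0 2 (x 2)))) / h ^ 2 := by
        funext x
        rfl
      show BL fun x => F x 3
      rw [e]
      exact (q.neg.div_const 8).add ((hw.mul (((BL.const 4).mul w).sub
        ((z.mul ((BL.const 2).sub hth)).mul h4w))).div_const _)
  choose hK hM using hF
  choose K hK0 hK using hK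
  choose M hM using hM
  let K' : ℝ := ∑ i, K i
  let M' : ℝ := ∑ i, |M i|
  have hK'0 : 0 ≤ K' := Finset.sum_nonneg fun i _ => hK0 i
  have hM'0 : 0 ≤ M' := Finset.sum_nonneg fun i _ => abs_nonneg _
  refine ⟨K'.toNNReal, M'.toNNReal, ?_, ?_⟩
  · apply LipschitzWith.of_dist_le_mul
    intro x y
    rw [dist_pi_le_iff (by positivity)]
    intro i
    rw [Real.dist_eq, dist_eq_norm, Real.coe_toNNReal _ hK'0]
    refine (hK i x y).trans ?_
    apply mul_le_mul_of_nonneg_right _ (norm_nonneg _)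
    exact Finset.single_le_sum (fun j _ => hK0 j) (Finset.mem_univ i)
  · intro x
    rw [Real.coe_toNNReal _ hM'0, pi_norm_le_iff_of_nonneg hM'0]
    intro i
    rw [Real.norm_eq_abs]
    refine (hM i x).trans ((le_abs_self _).trans ?_)
    exact Finset.single_le_sum (f := fun j => |M j|) (fun j _ => abs_nonneg _) (Finset.mem_univ i)

theorem j1b (h : J1a) : J1b := by
  obtain ⟨K, M, hK, hM⟩ := h
  obtain ⟨φ, h0, hφ⟩ := Pool.Agent.Helper197.SI.exists_flow_aux F hK hM
  exact ⟨φ, h0, fun x t => hφ x t, fun s t x => Pool.Agent.Helper197.SI.flow_add hK h0 hφ s t x,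
    Pool.Agent.Helper197.SI.flow_cont hK hM h0 hφ⟩

end Q94.GD
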