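import Pool.Agent.Q94.GD.K9

open Set Filter Topology

namespace Q94.GD

lemma contDiff_two_of {f f' f'' : ℝ → ℝ} (h1 : ∀ t, HasDerivAt f (f' t) t)
    (h2 : ∀ t, HasDerivAt f' (f'' t) t) (h3 : Continuous f'') : ContDiff ℝ 2 f := by
  have e1 : deriv f = f' := funext fun t => (h1 t).deriv
  have e2 : deriv f' = f'' := funext fun t => (h2 t).deriv
  have h4 : ContDiff ℝ 1 f' := by
    rw [contDiff_one_iff_deriv]
    exact ⟨fun t => (h2 t).differentiableAt, by rw [e2]; exact h3⟩
  rw [show (2 : WithTop ℕ∞) = 1 + 1 from rfl, contDiff_succ_iff_deriv]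
  refine ⟨fun t => (h1 t).differentiableAt, by simp, by rw [e1]; exact h4⟩

lemma hasDeriv_space {f f' : ℝ → ℝ} (h1 : ∀ t, HasDerivAt f (f' t) t) (k c t y : ℝ) :
    HasDerivAt (fun y => f (k * (y - c * t))) (k * f' (k * (y - c * t))) y := by
  have h2 : HasDerivAt (fun y : ℝ => k * (y - c * t)) (k * 1) y :=
    ((hasDerivAt_id y).sub_const _).const_mul k
  have := (h1 (k * (y - c * t))).comp y h2
  refine this.congr_deriv ?_
  ring

lemma hasDeriv_time {f f' : ℝ → ℝ} (h1 : ∀ t, HasDerivAt f (f' t) t) (k c t y : ℝ) :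
    HasDerivAt (fun τ => f (k * (y - c * τ))) (-(c * k) * f' (k * (y - c * t))) t := by
  have h2 : HasDerivAt (fun τ : ℝ => k * (y - c * τ)) (k * (-(c * 1))) t :=
    (((hasDerivAt_id t).const_mul c).const_sub y).const_mul k
  have := (h1 (k * (y - c * t))).comp t h2
  refine this.congr_deriv ?_
  ring

theorem j12 (h2 : J2) : J12 := by
  intro x hx hG hlim
  have hh : 0 < h := h_pos
  have hd0 := fun t => (lim_comp hx hG t).1
  have hd1 := fun t => (lim_comp hx hG t).2.1
  have hd2 := fun t => (lim_comp hx hG t).2.2.1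
  have hd3 := fun t => (lim_comp hx hG t).2.2.2
  have hw : ∀ t, 0 ≤ x t 2 ∧ x t 2 ≤ 2 := fun t =>
    ⟨(hx.2.2.1 t).2.2.1, by
      have := (h2 _ _ (hx.2.2.1 t).1 (hx.2.2.1 t).2.1).1
      linarith [(hx.2.2.1 t).2.2.2.1]⟩
  have hz : ∀ t, 0 ≤ x t 0 ∧ x t 0 ≤ 2 := fun t =>
    ⟨(hx.2.2.1 t).1, by
      have := (h2 _ _ (hx.2.2.1 t).1 (hx.2.2.1 t).2.1).1
      linarith⟩
  have hN : ∀ t, 0 < 1 - h ^ 2 * x t 2 := by
    intro t
    have := hw t
    unfold h; nlinarith
  have hth : 0 < th := by unfold th; positivity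
  have hc : ∀ i, Continuous (fun t => x t i) := by
    intro i
    have : Continuous x := continuous_iff_continuousAt.2 fun t => (hx.1 t).continuousAt
    exact (continuous_apply i).comp this
  have hC1 : Continuous (fun t => -x t 1 / 8 + A (x t 2) (x t 3) * x t 1 - B (x t 0) (x t 2)) := by
    unfold A B
    have := hc 0; have := hc 1; have := hc 2; have := hc 3
    have h5 : Continuous fun t => 2 * h ^ 2 * x t 3 / (1 - h ^ 2 * x t 2) :=
      Continuous.div (by fun_prop) (by fun_prop) (fun t => (hN t).ne')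
    fun_prop
  have hC3 : Continuous (fun t => -x t 3 / 8 + S (x t 0) (x t 2) / h ^ 2) := by
    unfold S
    have := hc 0; have := hc 1; have := hc 2; have := hc 3
    fun_prop
  have hz2 : ContDiff ℝ 2 (fun t => x t 0) := contDiff_two_of hd0 hd1 hC1
  have hw2 : ContDiff ℝ 2 (fun t => x t 2) := contDiff_two_of hd2 hd3 hC3
  set c : ℝ := h / 8 with hcdef
  have hPd : ∀ t, deriv (fun y => th * x (h * (y - c * t)) 0) =
      fun y => th * (h * x (h * (y - c * t)) 1) := fun t => funext fun y =>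
    ((hasDeriv_space hd0 h c t y).const_mul th).deriv
  have hNd' : ∀ t y, HasDerivAt (fun y => 1 - h ^ 2 * x (h * (y - c * t)) 2)
      (-(h ^ 2 * (h * x (h * (y - c * t)) 3))) y := fun t y =>
    ((hasDeriv_space hd2 h c t y).const_mul (h ^ 2)).const_sub 1
  have hNd : ∀ t, deriv (fun y => 1 - h ^ 2 * x (h * (y - c * t)) 2) =
      fun y => -(h ^ 2 * (h * x (h * (y - c * t)) 3)) := fun t => funext fun y =>
    (hNd' t y).deriv
  refine ⟨⟨?_, ?_, ?_, ?_⟩, ?_, ?_, ?_, ?_, ?_, ?_⟩
  · show ContDiff ℝ 2 (fun y : ℝ × ℝ => th * x (h * (y.2 - c * y.1)) 0)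
    have h5 : ContDiff ℝ 2 (fun y : ℝ × ℝ => h * (y.2 - c * y.1)) := by fun_prop
    exact contDiff_const.mul (hz2.comp h5)
  · show ContDiff ℝ 2 (fun y : ℝ × ℝ => 1 - h ^ 2 * x (h * (y.2 - c * y.1)) 2)
    have h5 : ContDiff ℝ 2 (fun y : ℝ × ℝ => h * (y.2 - c * y.1)) := by fun_prop
    exact contDiff_const.sub (contDiff_const.mul (hw2.comp h5))
  · intro t y
    have e1 : deriv (fun τ => th * x (h * (y - c * τ)) 0) t =
        th * (-(c * h) * x (h * (y - c * t)) 1) :=
      ((hasDeriv_time hd0 h c t y).const_mul th).deriv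
    have e2 : deriv (fun y => Real.log (1 - h ^ 2 * x (h * (y - c * t)) 2)) y =
        -(h ^ 2 * (h * x (h * (y - c * t)) 3)) / (1 - h ^ 2 * x (h * (y - c * t)) 2) :=
      ((hNd' t y).log (hN _).ne').deriv
    have e3 : deriv (fun y => th * (h * x (h * (y - c * t)) 1)) y =
        th * (h * (h * (-x (h * (y - c * t)) 1 / 8 + A (x (h * (y - c * t)) 2)
          (x (h * (y - c * t)) 3) * x (h * (y - c * t)) 1
          - B (x (h * (y - c * t)) 0) (x (h * (y - c * t)) 2)))) :=
      (((hasDeriv_space hd1 h c t y).const_mul h).const_mul th).deriv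
    rw [e1, hPd t, e2, e3]
    have hN' := (hN (h * (y - c * t))).ne'
    beta_reduce
    generalize x (h * (y - c * t)) 0 = z0 at *
    generalize x (h * (y - c * t)) 1 = v0 at *
    generalize x (h * (y - c * t)) 2 = w0 at *
    generalize x (h * (y - c * t)) 3 = q0 at *
    rw [hcdef]
    unfold A B th
    have h7 : (1 + h ^ 2) ≠ 0 := by positivity
    field_simp
    ring
  · intro t y
    have e1 : deriv (fun τ => 1 - h ^ 2 * x (h * (y - c * τ)) 2) t =
        -(h ^ 2 * (-(c * h) * x (h * (y - c * t)) 3)) :=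
      (((hasDeriv_time hd2 h c t y).const_mul (h ^ 2)).const_sub 1).deriv
    have e3 : deriv (fun y => -(h ^ 2 * (h * x (h * (y - c * t)) 3))) y =
        -(h ^ 2 * (h * (h * (-x (h * (y - c * t)) 3 / 8 +
          S (x (h * (y - c * t)) 0) (x (h * (y - c * t)) 2) / h ^ 2)))) :=
      ((((hasDeriv_space hd3 h c t y).const_mul h).const_mul (h ^ 2)).neg).deriv
    rw [e1, hNd t, e3]
    generalize x (h * (y - c * t)) 0 = z0 at *
    generalize x (h * (y - c * t)) 2 = w0 at *
    generalize x (h * (y - c * t)) 3 = q0 at *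
    rw [hcdef]
    unfold S th
    have h7 : (1 + h ^ 2) ≠ 0 := by positivity
    field_simp
    ring
  · refine ⟨th * 2, fun ξ => ?_⟩
    have := hz (h * ξ)
    rw [abs_mul, abs_of_pos hth, abs_of_nonneg this.1]
    gcongr
    exact this.2
  · refine ⟨1, fun ξ => ?_⟩
    have h5 := hw (h * ξ)
    have h6 := hN (h * ξ)
    rw [abs_of_pos h6]
    have : 0 ≤ h ^ 2 * x (h * ξ) 2 := mul_nonneg (by positivity) h5.1
    linarith
  · exact fun ξ => mul_nonneg hth.le (hz _).1
  · exact fun ξ => hN _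
  · have h5 : Tendsto (fun ξ : ℝ => h * ξ) atBot atBot :=
      tendsto_id.const_mul_atBot hh
    have := (hlim.1.comp h5).const_mul th
    rw [mul_zero] at this
    exact this
  · have h5 : Tendsto (fun ξ : ℝ => h * ξ) atBot atBot :=
      tendsto_id.const_mul_atBot hh
    have := ((hlim.2.comp h5).const_mul (h ^ 2)).const_sub 1
    rw [mul_zero, sub_zero] at this
    exact this

end Q94.GD
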