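import Mathlib
import Pool.Agent.Q94.GD.Stm

/-!
# Job GD-2: the Lyapunov trap
-/

set_option autoImplicit false

open Set Filter Topology

namespace Q94.GD

/-! ### clamps -/

theorem cl_eq {a b x : ℝ} (h1 : a ≤ x) (h2 : x ≤ b) : cl a b x = x := by
  unfold cl
  rw [min_eq_right h2, max_eq_right h1]

theorem le_cl (a b x : ℝ) : a ≤ cl a b x := le_max_left _ _

theorem cl_le {a b : ℝ} (hab : a ≤ b) (x : ℝ) : cl a b x ≤ b :=
  max_le hab (min_le_left _ _)

/-! ### elementary bounds -/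

theorem j2 : J2 := by
  intro z v hz hV
  unfold V at hV
  have key : (v + z / 24) ^ 2 / 2 ≤ z ^ 2 * (1 / 2 + 1 / 1152 - z / 3) := by nlinarith [hV]
  refine ⟨?_, ?_, ?_⟩
  · by_contra hc
    push Not at hc
    have h1 : z ^ 2 * (1 / 2 + 1 / 1152 - z / 3) < 0 := by
      apply mul_neg_of_pos_of_neg
      · positivity
      · linarith
    have h2 : 0 ≤ (v + z / 24) ^ 2 / 2 := by positivity
    linarith
  · by_contra hc
    push Not at hc
    have h0 : 0 < v := lt_of_le_of_lt hz hc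
    have h1 : z ^ 2 < v ^ 2 := by nlinarith
    have h2 : 0 ≤ z ^ 3 := by positivity
    have h3 : 0 ≤ z * v := by positivity
    nlinarith
  · by_contra hc
    push Not at hc
    have h0 : 0 < -v := by nlinarith
    have h2 : 0 ≤ z ^ 3 := by positivity
    have h1 : (11 / 10 * z) * (11 / 10 * z - z / 12) ≤ (-v) * (-v - z / 12) := by
      apply mul_le_mul
      · linarith
      · linarith
      · linarith
      · linarith
    have h3 : (11 / 10 * z) * (11 / 10 * z - z / 12) = 671 / 600 * z ^ 2 := by ring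
    rw [h3] at h1
    rcases eq_or_lt_of_le hz with h4 | h4
    · rw [← h4] at hV
      nlinarith
    · have h5 : 0 < z ^ 2 := by positivity
      nlinarith

/-! ### the field in the trap -/

theorem abs_A {w q : ℝ} (hw0 : 0 ≤ w) (hw : w ≤ 2) (hq : |q| ≤ 36 / h) :
    |A w q| ≤ 73 / 10000 := by
  unfold A
  have hh : h = 1 / 10000 := rfl
  rw [hh] at hq ⊢
  have h1 : (0 : ℝ) < 1 - (1 / 10000) ^ 2 * w := by nlinarith
  rw [abs_div, abs_of_pos h1, div_le_iff₀ h1, abs_mul, abs_of_pos (by norm_num :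
    (0 : ℝ) < 2 * (1 / 10000) ^ 2)]
  have h2 : (36 : ℝ) / (1 / 10000) = 360000 := by norm_num
  rw [h2] at hq
  nlinarith

theorem abs_b {z w : ℝ} (hz0 : 0 ≤ z) (hz : z ≤ 151 / 100) (hw0 : 0 ≤ w) (hw : w ≤ 2) :
    |(1 + 4 * h ^ 2 * w) * (1 - th * z) - 1| ≤ 1 / 1000000 := by
  have hh : h = 1 / 10000 := rfl
  have ht0 : 0 ≤ th := by unfold th; positivity
  have ht : th ≤ 2 / 10 ^ 8 := by
    unfold th
    rw [hh, div_le_iff₀ (by norm_num)]
    norm_num
  have h1 : 0 ≤ th * z := mul_nonneg ht0 hz0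
  have h2 : th * z ≤ 4 / 10 ^ 8 := by nlinarith
  rw [hh]
  have h3 : (0 : ℝ) ≤ 4 * (1 / 10000) ^ 2 * w := by positivity
  have h4 : 4 * (1 / 10000) ^ 2 * w ≤ 8 / 10 ^ 8 := by nlinarith
  set p := 4 * (1 / 10000 : ℝ) ^ 2 * w
  set r := th * z
  rw [abs_le]
  constructor
  · nlinarith [mul_nonneg h3 h1]
  · nlinarith [mul_nonneg h3 h1]

/-- The field in the closed trap. -/
theorem trapF {x : E} (h0 : 0 ≤ x 0) (hV : V (x 0) (x 1) ≤ 0) :
    ∃ a b : ℝ, |a| ≤ 73 / 10000 ∧ |b| ≤ 1 / 1000000 ∧ F x 0 = x 1 ∧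
      F x 1 = -x 1 / 8 + a * x 1 - x 0 * (x 0 - 1) * (1 + b) := by
  obtain ⟨h1, h2, h3⟩ := j2 _ _ h0 hV
  have e0 : cl 0 2 (x 0) = x 0 := cl_eq h0 (by linarith)
  have e1 : cl (-2) 2 (x 1) = x 1 := cl_eq (by linarith) (by linarith)
  have hh : h = 1 / 10000 := rfl
  set w := cl 0 2 (x 2) with hw
  set q := cl (-(36 / h)) (36 / h) (x 3) with hq
  have hw0 : 0 ≤ w := le_cl _ _ _
  have hw2 : w ≤ 2 := cl_le (by norm_num) _
  have h36 : (0 : ℝ) ≤ 36 / h := by rw [hh]; norm_num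
  have hq1 : |q| ≤ 36 / h := abs_le.2 ⟨le_cl _ _ _, cl_le (by linarith) _⟩
  refine ⟨A w q, (1 + 4 * h ^ 2 * w) * (1 - th * x 0) - 1, abs_A hw0 hw2 hq1,
    abs_b h0 h1 hw0 hw2, ?_, ?_⟩
  · show cl (-2) 2 (x 1) = x 1
    exact e1
  · show -(cl (-2) 2 (x 1)) / 8 + A w q * cl (-2) 2 (x 1) - B (cl 0 2 (x 0)) w = _
    rw [e0, e1]
    unfold B
    ring

/-! ### curves -/

theorem Sol.comp {x : ℝ → E} (hx : Sol x) (i : Fin 4) (t : ℝ) :
    HasDerivAt (fun t => x t i) (F (x t) i) t := (hasDerivAt_pi.1 (hx t)) i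

theorem Sol.cont {x : ℝ → E} (hx : Sol x) (i : Fin 4) : Continuous fun t => x t i :=
  continuous_iff_continuousAt.2 fun t => (hx.comp i t).continuousAt

theorem V_cont {x : ℝ → E} (hx : Sol x) : Continuous fun t => V (x t 0) (x t 1) := by
  unfold V
  have h0 := hx.cont 0
  have h1 := hx.cont 1
  fun_prop

/-- a function which is positive at `0` and whose derivative is positive at each of its zeros stays
positive -/
theorem pos_of_deriv_pos {f f' : ℝ → ℝ} (hf : ∀ t, HasDerivAt f (f' t) t) {T : ℝ}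
    (h0 : 0 < f 0) (hz : ∀ t ∈ Icc 0 T, f t = 0 → 0 < f' t) : ∀ t ∈ Icc 0 T, 0 < f t := by
  intro t ht
  by_contra hc
  push Not at hc
  have hcont : Continuous f := continuous_iff_continuousAt.2 fun t => (hf t).continuousAt
  let S : Set ℝ := {s | s ∈ Icc 0 T ∧ f s ≤ 0}
  have hS : IsClosed S := by
    apply IsClosed.inter isClosed_Icc
    exact isClosed_le hcont continuous_const
  have hne : S.Nonempty := ⟨t, ht, hc⟩
  have hbd : BddBelow S := ⟨0, fun s hs => hs.1.1⟩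
  have hmem := hS.csInf_mem hne hbd
  set s0 := sInf S with hs0
  have hpos : 0 < s0 := by
    rcases eq_or_lt_of_le hmem.1.1 with h | h
    · rw [← h] at hmem
      exact absurd h0 (not_lt.2 hmem.2)
    · exact h
  have hlt : ∀ s, 0 ≤ s → s < s0 → 0 < f s := by
    intro s hs1 hs2
    by_contra hcc
    push Not at hcc
    have : s ∈ S := ⟨⟨hs1, hs2.le.trans hmem.1.2⟩, hcc⟩
    exact absurd (csInf_le hbd this) (not_le.2 hs2)
  have hge : 0 ≤ f s0 := by
    have h1 : Tendsto f (𝓝[<] s0) (𝓝 (f s0)) := (hcont.tendsto s0).mono_left nhdsWithin_le_nhds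
    refine ge_of_tendsto h1 ?_
    have h2 : Ioo 0 s0 ∈ 𝓝[<] s0 := Ioo_mem_nhdsLT hpos
    filter_upwards [h2] with s hs
    exact (hlt s hs.1.le hs.2).le
  have hz0 : f s0 = 0 := le_antisymm hmem.2 hge
  have hd := hz s0 hmem.1 hz0
  have h1 := (hasDerivAt_iff_tendsto_slope.1 (hf s0))
  have h2 : Tendsto (slope f s0) (𝓝[<] s0) (𝓝 (f' s0)) :=
    h1.mono_left (nhdsWithin_mono _ fun s hs => ne_of_lt hs)
  have h3 : f' s0 ≤ 0 := by
    refine le_of_tendsto h2 ?_
    have h2 : Ioo 0 s0 ∈ 𝓝[<] s0 := Ioo_mem_nhdsLT hpos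
    filter_upwards [h2] with s hs
    rw [slope_def_field, hz0, sub_zero]
    exact (div_neg_of_pos_of_neg (hlt s hs.1.le hs.2) (by linarith [hs.2])).le
  linarith

theorem V_ineq {z v a b : ℝ} (hz0 : 0 ≤ z) (hz : z ≤ 151 / 100) (ha : |a| ≤ 73 / 10000)
    (hb : |b| ≤ 1 / 1000000) :
    v * (-v / 8 + a * v - z * (z - 1) * (1 + b)) + z ^ 2 * v - z * v + (v * v +
      z * (-v / 8 + a * v - z * (z - 1) * (1 + b))) / 24 +
      (v ^ 2 / 2 + z ^ 3 / 3 - z ^ 2 / 2 + z * v / 24) / 8 ≤ 0 := by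
  have e : v * (-v / 8 + a * v - z * (z - 1) * (1 + b)) + z ^ 2 * v - z * v + (v * v +
      z * (-v / 8 + a * v - z * (z - 1) * (1 + b))) / 24 +
      (v ^ 2 / 2 + z ^ 3 / 3 - z ^ 2 / 2 + z * v / 24) / 8 =
      -(v ^ 2 + z ^ 2) / 48 + a * v ^ 2 - ((z - 1) * b) * (v * z) + a * (v * z) / 24 -
        ((z - 1) * b) * z ^ 2 / 24 := by ring
  rw [e]
  have hc : |(z - 1) * b| ≤ 1 / 1000000 := by
    rw [abs_mul]
    have h1 : |z - 1| ≤ 1 := abs_le.2 ⟨by linarith, by linarith⟩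
    calc |z - 1| * |b| ≤ 1 * (1 / 1000000) := by
          apply mul_le_mul h1 hb (abs_nonneg _) (by norm_num)
      _ = _ := by ring
  set c := (z - 1) * b
  have hvz : |v * z| ≤ (v ^ 2 + z ^ 2) / 2 := by
    rw [abs_le]
    constructor <;> nlinarith [sq_nonneg (v + z), sq_nonneg (v - z)]
  have t1 : a * v ^ 2 ≤ 73 / 10000 * v ^ 2 :=
    mul_le_mul_of_nonneg_right ((le_abs_self a).trans ha) (sq_nonneg v)
  have t2 : -(c * (v * z)) ≤ 1 / 1000000 * ((v ^ 2 + z ^ 2) / 2) := by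
    refine (neg_le_abs _).trans ?_
    rw [abs_mul]
    exact mul_le_mul hc hvz (abs_nonneg _) (by norm_num)
  have t3 : a * (v * z) ≤ 73 / 10000 * ((v ^ 2 + z ^ 2) / 2) := by
    refine (le_abs_self _).trans ?_
    rw [abs_mul]
    exact mul_le_mul ha hvz (abs_nonneg _) (by norm_num)
  have t4 : -(c * z ^ 2) ≤ 1 / 1000000 * z ^ 2 := by
    rw [← neg_mul]
    exact mul_le_mul_of_nonneg_right ((neg_le_abs c).trans hc) (sq_nonneg z)
  nlinarith [sq_nonneg v, sq_nonneg z]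

theorem j3 (h : J2) : J3 := by
  intro x hx h0 t ht
  by_contra hc
  have c0 := hx.cont 0
  have cV := V_cont hx
  let S : Set ℝ := {s | 0 ≤ s ∧ ¬ Trap (x s)}
  have hopen : IsOpen {s | Trap (x s)} := by
    apply IsOpen.inter
    · exact isOpen_lt continuous_const c0
    · exact isOpen_lt cV continuous_const
  have hS : IsClosed S := by
    apply IsClosed.inter (isClosed_le continuous_const continuous_id)
    exact hopen.isClosed_compl
  have hne : S.Nonempty := ⟨t, ht, hc⟩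
  have hbd : BddBelow S := ⟨0, fun s hs => hs.1⟩
  have hmem := hS.csInf_mem hne hbd
  set T := sInf S with hT
  have hpos : 0 < T := by
    rcases eq_or_lt_of_le hmem.1 with h | h
    · rw [← h] at hmem
      exact absurd h0 hmem.2
    · exact h
  have hlt : ∀ s, 0 ≤ s → s < T → Trap (x s) := by
    intro s hs1 hs2
    by_contra hcc
    have : s ∈ S := ⟨hs1, hcc⟩
    exact absurd (csInf_le hbd this) (not_le.2 hs2)
  -- the decreasing function
  let W : ℝ → ℝ := fun s => Real.exp (s / 8) * V (x s 0) (x s 1)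
  have hWd : ∀ s, 0 ≤ s → s < T → ∃ d, HasDerivAt W d s ∧ d ≤ 0 := by
    intro s hs1 hs2
    obtain ⟨g1, g2⟩ := hlt s hs1 hs2
    obtain ⟨a, b, ha, hb, f0, f1⟩ := trapF g1.le g2.le
    obtain ⟨b1, b2, b3⟩ := j2 _ _ g1.le g2.le
    have d0 := hx.comp 0 s
    have d1 := hx.comp 1 s
    rw [f0] at d0
    rw [f1] at d1
    have dV : HasDerivAt (fun s => V (x s 0) (x s 1))
        (x s 1 * (-x s 1 / 8 + a * x s 1 - x s 0 * (x s 0 - 1) * (1 + b)) + x s 0 ^ 2 * x s 1 -
          x s 0 * x s 1 + (x s 1 * x s 1 +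
          x s 0 * (-x s 1 / 8 + a * x s 1 - x s 0 * (x s 0 - 1) * (1 + b))) / 24) s := by
      have := ((((d1.pow 2).div_const 2).add ((d0.pow 3).div_const 3)).sub
        ((d0.pow 2).div_const 2)).add ((d0.mul d1).div_const 24)
      refine this.congr_deriv ?_
      push_cast
      ring
    have dE : HasDerivAt (fun s : ℝ => Real.exp (s / 8)) (Real.exp (s / 8) * (1 / 8)) s :=
      ((hasDerivAt_id s).div_const 8).exp
    refine ⟨_, dE.mul dV, ?_⟩
    have e1 := V_ineq (v := x s 1) g1.le b1 ha hb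
    have e2 : 0 < Real.exp (s / 8) := Real.exp_pos _
    unfold V
    nlinarith
  have hWcont : Continuous W := by
    have : Continuous fun s : ℝ => Real.exp (s / 8) := by fun_prop
    exact this.mul cV
  have hanti : AntitoneOn W (Icc 0 T) := by
    apply antitoneOn_of_deriv_nonpos (convex_Icc 0 T) hWcont.continuousOn
    · intro s hs
      rw [interior_Icc] at hs
      obtain ⟨d, hd, -⟩ := hWd s hs.1.le hs.2
      exact hd.differentiableAt.differentiableWithinAt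
    · intro s hs
      rw [interior_Icc] at hs
      obtain ⟨d, hd, hd2⟩ := hWd s hs.1.le hs.2
      rw [hd.deriv]
      exact hd2
  have hWT : W T ≤ W 0 := hanti ⟨le_rfl, hpos.le⟩ ⟨hpos.le, le_rfl⟩ hpos.le
  have hW0 : W 0 < 0 := by
    show Real.exp (0 / 8) * V (x 0 0) (x 0 1) < 0
    exact mul_neg_of_pos_of_neg (Real.exp_pos _) h0.2
  have hVT : V (x T 0) (x T 1) < 0 := by
    by_contra hcc
    push Not at hcc
    have : 0 ≤ W T := mul_nonneg (Real.exp_pos _).le hcc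
    linarith
  have hzT : 0 ≤ x T 0 := by
    have h1 : Tendsto (fun t => x t 0) (𝓝[<] T) (𝓝 (x T 0)) :=
      (c0.tendsto T).mono_left nhdsWithin_le_nhds
    refine ge_of_tendsto h1 ?_
    have h2 : Ioo 0 T ∈ 𝓝[<] T := Ioo_mem_nhdsLT hpos
    filter_upwards [h2] with s hs
    exact (hlt s hs.1.le hs.2).1.le
  apply hmem.2
  refine ⟨lt_of_le_of_ne hzT ?_, hVT⟩
  intro h1
  rw [← h1] at hVT
  unfold V at hVT
  nlinarith [sq_nonneg (x T 1)]

end Q94.GD
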