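import Mathlib
import Pool.Agent.Q94.GD.Stm
import Pool.Agent.Q94.GD.K2

/-!
# Job GD-3: the barrier for the speed
-/

set_option autoImplicit false
set_option linter.unusedVariables false

open Set Filter Topology

namespace Q94.GD

theorem barrier_ineq {z a b : ℝ} (hz0 : 0 < z) (hz : z ≤ 1) (ha : |a| ≤ 73 / 10000)
    (hb : |b| ≤ 1 / 1000000) :
    0 < -(phi z) / 8 + a * phi z - z * (z - 1) * (1 + b) - (3 / 4 - z) * phi z := by
  unfold phi
  have e : -(z * (3 / 2 - z) / 2) / 8 + a * (z * (3 / 2 - z) / 2) - z * (z - 1) * (1 + b) -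
      (3 / 4 - z) * (z * (3 / 2 - z) / 2) =
      z * (11 / 32 + 3 / 16 * z - z ^ 2 / 2 + a * ((3 / 2 - z) / 2) + b * (1 - z)) := by ring
  rw [e]
  apply mul_pos hz0
  have t1 : -(73 / 10000 * ((3 / 2 - z) / 2)) ≤ a * ((3 / 2 - z) / 2) := by
    have := mul_le_mul_of_nonneg_right (neg_le_of_abs_le ha)
      (by linarith : (0 : ℝ) ≤ (3 / 2 - z) / 2)
    linarith
  have t2 : -(1 / 1000000 * (1 - z)) ≤ b * (1 - z) := by
    have := mul_le_mul_of_nonneg_right (neg_le_of_abs_le hb)
      (by linarith : (0 : ℝ) ≤ 1 - z)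
    linarith
  nlinarith

theorem j4 (h2 : J2) (h3 : J3) : J4 := by
  intro x hx h0 hphi T hT hle
  have hd : ∀ t, HasDerivAt (fun t => x t 1 - phi (x t 0))
      (F (x t) 1 - (3 / 4 - x t 0) * F (x t) 0) t := by
    intro t
    have d0 := hx.comp 0 t
    have d1 := hx.comp 1 t
    unfold phi
    have := d1.sub ((d0.mul (d0.const_sub (3 / 2))).div_const 2)
    refine this.congr_deriv ?_
    ring
  have hpos := pos_of_deriv_pos (T := T) hd (by linarith) (by
    intro t ht hz
    obtain ⟨g1, g2⟩ := h3 x hx h0 t ht.1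
    obtain ⟨a, b, ha, hb, f0, f1⟩ := trapF g1.le g2.le
    rw [f0, f1]
    have hv : x t 1 = phi (x t 0) := by linarith
    rw [hv]
    exact barrier_ineq g1 (hle t ht) ha hb)
  intro t ht
  have := hpos t ht
  linarith

end Q94.GD
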