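import Mathlib
import Pool.Agent.Q94.GD.Stm
import Pool.Agent.Q94.GD.K2

/-!
# Job GD-4: a priori bound of `q` and forced exits
-/

set_option autoImplicit false
set_option linter.unusedVariables false

open Set Filter Topology

namespace Q94.GD

theorem abs_S {z w : ℝ} (hz0 : 0 ≤ z) (hz : z ≤ 2) (hw0 : 0 ≤ w) (hw : w ≤ 2) :
    |S z w| ≤ 8 := by
  unfold S
  have hh : h = 1 / 10000 := rfl
  have ht0 : 0 ≤ th := by unfold th; positivity
  have ht : th ≤ 2 / 10 ^ 8 := by
    unfold th
    rw [hh, div_le_iff₀ (by norm_num)]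
    norm_num
  have h1 : 0 ≤ 1 - h ^ 2 * w := by rw [hh]; nlinarith
  have h2 : 1 - h ^ 2 * w ≤ 1 := by rw [hh]; nlinarith
  have h3 : 0 ≤ 2 - th * z := by nlinarith
  have h4 : 2 - th * z ≤ 2 := by nlinarith [mul_nonneg ht0 hz0]
  have h5 : 0 ≤ 1 + 4 * h ^ 2 * w := by rw [hh]; nlinarith
  have h6 : 1 + 4 * h ^ 2 * w ≤ 1 + 1 / 10 ^ 6 := by rw [hh]; nlinarith
  have h7 : 0 ≤ z * (2 - th * z) := mul_nonneg hz0 h3
  have h8 : z * (2 - th * z) ≤ 4 := by nlinarith
  have h9 : 0 ≤ z * (2 - th * z) * (1 + 4 * h ^ 2 * w) := mul_nonneg h7 h5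
  have h10 : z * (2 - th * z) * (1 + 4 * h ^ 2 * w) ≤ 4 * (1 + 1 / 10 ^ 6) :=
    mul_le_mul h8 h6 h5 (by norm_num)
  have h11 : |4 * w - z * (2 - th * z) * (1 + 4 * h ^ 2 * w)| ≤ 8 := by
    rw [abs_le]
    constructor
    · norm_num at h10 ⊢
      linarith
    · linarith
  rw [abs_mul, abs_of_nonneg h1]
  calc (1 - h ^ 2 * w) * |4 * w - z * (2 - th * z) * (1 + 4 * h ^ 2 * w)| ≤ 1 * 8 :=
        mul_le_mul h2 h11 (abs_nonneg _) (by norm_num)
    _ = 8 := by norm_num

theorem F2 (x : E) : F x 2 = cl (-(36 / h)) (36 / h) (x 3) := rfl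

theorem F3 (x : E) : ∃ s : ℝ, |s| ≤ 8 ∧ F x 3 = -(cl (-(36 / h)) (36 / h) (x 3)) / 8 + s / h ^ 2 :=
  ⟨S (cl 0 2 (x 0)) (cl 0 2 (x 2)), abs_S (le_cl _ _ _) (cl_le (by norm_num) _) (le_cl _ _ _)
    (cl_le (by norm_num) _), rfl⟩

theorem j5 : J5 := by
  intro x hx h0 T hT hw
  have hh : h = 1 / 10000 := rfl
  have e12 : (12 : ℝ) / h = 120000 := by rw [hh]; norm_num
  have e36 : (36 : ℝ) / h = 360000 := by rw [hh]; norm_num
  have eh2 : h ^ 2 = 1 / 100000000 := by rw [hh]; norm_num
  rw [e12] at h0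
  rw [e36]
  have hw0 := hw 0 ⟨le_rfl, hT⟩
  have d2 : ∀ t, HasDerivAt (fun t => x t 2) (F (x t) 2) t := hx.comp 2
  have d3 : ∀ t, HasDerivAt (fun t => x t 3) (F (x t) 3) t := hx.comp 3
  have hf := pos_of_deriv_pos (T := T) (f := fun t => 120000 * (1 + x t 2) - x t 3)
    (f' := fun t => 120000 * F (x t) 2 - F (x t) 3)
    (fun t => (((d2 t).const_add 1).const_mul 120000).sub (d3 t))
    (by
      have := (abs_lt.1 h0).2
      show 0 < 120000 * (1 + x 0 2) - x 0 3
      linarith [hw0.1])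
    (by
      intro t ht hz
      obtain ⟨w0, w2⟩ := hw t ht
      obtain ⟨s, hs, e3⟩ := F3 (x t)
      have hq : x t 3 = 120000 * (1 + x t 2) := by linarith
      have ec : cl (-(36 / h)) (36 / h) (x t 3) = x t 3 := by
        rw [e36]
        apply cl_eq <;> linarith
      show 0 < 120000 * F (x t) 2 - F (x t) 3
      rw [F2, e3, ec, eh2, hq]
      have := (abs_le.1 hs).2
      have e : s / (1 / 100000000 : ℝ) = 100000000 * s := by ring
      rw [e]
      nlinarith)
  have hg := pos_of_deriv_pos (T := T) (f := fun t => x t 3 + 120000 * (3 - x t 2))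
    (f' := fun t => F (x t) 3 + 120000 * (-F (x t) 2))
    (fun t => (d3 t).add (((d2 t).const_sub 3).const_mul 120000))
    (by
      have := (abs_lt.1 h0).1
      show 0 < x 0 3 + 120000 * (3 - x 0 2)
      linarith [hw0.2])
    (by
      intro t ht hz
      obtain ⟨w0, w2⟩ := hw t ht
      obtain ⟨s, hs, e3⟩ := F3 (x t)
      have hq : x t 3 = -(120000 * (3 - x t 2)) := by linarith
      have ec : cl (-(36 / h)) (36 / h) (x t 3) = x t 3 := by
        rw [e36]
        apply cl_eq <;> linarith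
      show 0 < F (x t) 3 + 120000 * (-F (x t) 2)
      rw [F2, e3, ec, eh2, hq]
      have := (abs_le.1 hs).1
      have e : s / (1 / 100000000 : ℝ) = 100000000 * s := by ring
      rw [e]
      nlinarith)
  intro t ht
  obtain ⟨w0, w2⟩ := hw t ht
  have h1 := hf t ht
  have h2 := hg t ht
  rw [abs_lt]
  constructor <;> linarith

/-- a lower bound of the derivative -/
theorem lower {f f' : ℝ → ℝ} (hf : ∀ t, HasDerivAt f (f' t) t) {m a b : ℝ} (hab : a ≤ b)
    (h : ∀ t ∈ Icc a b, m ≤ f' t) : f a + m * (b - a) ≤ f b := by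
  have hd : ∀ t, HasDerivAt (fun t => f t - m * t) (f' t - m * 1) t := fun t =>
    (hf t).sub ((hasDerivAt_id t).const_mul m)
  have hmono : MonotoneOn (fun t => f t - m * t) (Icc a b) := by
    apply monotoneOn_of_deriv_nonneg (convex_Icc a b)
    · exact fun t _ => (hd t).continuousAt.continuousWithinAt
    · exact fun t _ => (hd t).differentiableAt.differentiableWithinAt
    · intro t ht
      rw [(hd t).deriv]
      have := h t (interior_subset ht)
      linarith
  have := hmono ⟨le_rfl, hab⟩ ⟨hab, le_rfl⟩ hab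
  nlinarith

/-- an upper bound of the derivative -/
theorem upper {f f' : ℝ → ℝ} (hf : ∀ t, HasDerivAt f (f' t) t) {m a b : ℝ} (hab : a ≤ b)
    (h : ∀ t ∈ Icc a b, f' t ≤ m) : f b ≤ f a + m * (b - a) := by
  have := lower (f := fun t => -f t) (f' := fun t => -f' t) (m := -m) (fun t => (hf t).neg) hab
    (fun t ht => by have := h t ht; linarith)
  nlinarith

theorem start_trap {ε q : ℝ} (h0 : 0 < ε) (h1 : ε ≤ 1 / 2) : Trap (Start ε q) := by
  refine ⟨h0, ?_⟩
  show V ε (3 * ε / 4) < 0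
  unfold V
  have e : (3 * ε / 4) ^ 2 / 2 + ε ^ 3 / 3 - ε ^ 2 / 2 + ε * (3 * ε / 4) / 24 =
      ε ^ 2 * (ε / 3 - 3 / 16) := by ring
  rw [e]
  apply mul_neg_of_pos_of_neg
  · positivity
  · linarith

theorem j7 (h2 : J2) (h3 : J3) : J7 := by
  intro ε hε hε2 x hx
  have hh : h = 1 / 10000 := rfl
  have e11 : (11 : ℝ) / h = 110000 := by rw [hh]; norm_num
  have e36 : (36 : ℝ) / h = 360000 := by rw [hh]; norm_num
  have eh2 : h ^ 2 = 1 / 100000000 := by rw [hh]; norm_num
  have d2 : ∀ t, HasDerivAt (fun t => x t 2) (F (x t) 2) t := hx.comp 2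
  have d3 : ∀ t, HasDerivAt (fun t => x t 3) (F (x t) 3) t := hx.comp 3
  have hF3 : ∀ t, |F (x t) 3| ≤ 800045000 := by
    intro t
    obtain ⟨s, hs, e3⟩ := F3 (x t)
    rw [e3, eh2, e36]
    have c1 := le_cl (-360000) 360000 (x t 3)
    have c2 := cl_le (a := -360000) (b := 360000) (by norm_num) (x t 3)
    obtain ⟨s1, s2⟩ := abs_le.1 hs
    have e : s / (1 / 100000000 : ℝ) = 100000000 * s := by ring
    rw [e, abs_le]
    constructor <;> linarith
  rw [e11]
  constructor
  · intro hs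
    have x00 : x 0 0 = ε := by rw [hs]; rfl
    have x02 : x 0 2 = ε / 2 := by rw [hs]; rfl
    have x03 : x 0 3 = 110000 := by rw [hs]; rfl
    have htr : Trap (x 0) := by rw [hs]; exact start_trap hε hε2
    have hq : ∀ t ∈ Icc 0 (1 / 10000 : ℝ), 29000 ≤ x t 3 := by
      intro t ht
      have := lower d3 (m := -800045000) ht.1 (fun s _ => (abs_le.1 (hF3 s)).1)
      rw [x03] at this
      have h1 := ht.2
      nlinarith
    have hF2 : ∀ t ∈ Icc 0 (1 / 10000 : ℝ), 29000 ≤ F (x t) 2 := by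
      intro t ht
      rw [F2, e36]
      unfold cl
      apply le_max_of_le_right
      exact le_min (by norm_num) (hq t ht)
    have hw : ∀ t ∈ Icc 0 (1 / 10000 : ℝ), ε / 2 + 29000 * t ≤ x t 2 := by
      intro t ht
      have := lower d2 (m := 29000) ht.1 (fun s hs => hF2 s ⟨hs.1, hs.2.trans ht.2⟩)
      rw [x02] at this
      linarith
    refine ⟨1 / 10000, by norm_num, ?_, ?_⟩
    · obtain ⟨g1, g2⟩ := h3 x hx htr (1 / 10000) (by norm_num)
      have h4 := (h2 _ _ g1.le g2.le).1
      have h5 := hw (1 / 10000) ⟨by norm_num, le_rfl⟩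
      linarith
    · intro t ht
      have h5 := hw t ht
      have h6 := ht.1
      linarith
  · intro hs
    have x00 : x 0 0 = ε := by rw [hs]; rfl
    have x02 : x 0 2 = ε / 2 := by rw [hs]; rfl
    have x03 : x 0 3 = -110000 := by rw [hs]; rfl
    have htr : Trap (x 0) := by rw [hs]; exact start_trap hε hε2
    have hq : ∀ t ∈ Icc 0 (1 / 10000 : ℝ), x t 3 ≤ -29000 := by
      intro t ht
      have := upper d3 (m := 800045000) ht.1 (fun s _ => (abs_le.1 (hF3 s)).2)
      rw [x03] at this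
      have h1 := ht.2
      nlinarith
    have hF2 : ∀ t ∈ Icc 0 (1 / 10000 : ℝ), F (x t) 2 ≤ -29000 := by
      intro t ht
      rw [F2, e36]
      unfold cl
      apply max_le (by norm_num)
      exact (min_le_right _ _).trans (hq t ht)
    have hw : ∀ t ∈ Icc 0 (1 / 10000 : ℝ), x t 2 ≤ ε / 2 - 29000 * t := by
      intro t ht
      have := upper d2 (m := -29000) ht.1 (fun s hs => hF2 s ⟨hs.1, hs.2.trans ht.2⟩)
      rw [x02] at this
      linarith
    have hd : ∀ t, 0 ≤ t → HasDerivAt (fun t => x t 0) (x t 1) t ∧ -(11 / 10 * x t 0) ≤ x t 1 ∧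
        0 < x t 0 := by
      intro t ht
      obtain ⟨g1, g2⟩ := h3 x hx htr t ht
      obtain ⟨a, b, ha, hb, f0, f1⟩ := trapF g1.le g2.le
      have d0 := hx.comp 0 t
      rw [f0] at d0
      exact ⟨d0, (h2 _ _ g1.le g2.le).2.2, g1⟩
    have hz : ∀ t ∈ Icc 0 (1 / 10000 : ℝ), ε / 2 < x t 0 := by
      intro t ht
      have hmono : MonotoneOn (fun t => Real.exp (11 / 10 * t) * x t 0) (Icc 0 t) := by
        have hder : ∀ t, 0 ≤ t → HasDerivAt (fun t => Real.exp (11 / 10 * t) * x t 0)
            (Real.exp (11 / 10 * t) * (11 / 10 * 1) * x t 0 +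
              Real.exp (11 / 10 * t) * x t 1) t := by
          intro t ht
          have dE : HasDerivAt (fun s : ℝ => Real.exp (11 / 10 * s))
              (Real.exp (11 / 10 * t) * (11 / 10 * 1)) t :=
            ((hasDerivAt_id t).const_mul (11 / 10)).exp
          exact dE.mul (hd t ht).1
        apply monotoneOn_of_deriv_nonneg (convex_Icc 0 t)
        · exact fun s hs => (hder s hs.1).continuousAt.continuousWithinAt
        · intro s hs
          rw [interior_Icc] at hs
          exact (hder s hs.1.le).differentiableAt.differentiableWithinAt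
        · intro s hs
          rw [interior_Icc] at hs
          rw [(hder s hs.1.le).deriv]
          have h5 := (hd s hs.1.le).2.1
          have h9 := Real.exp_pos (11 / 10 * s)
          nlinarith
      have h5 := hmono ⟨le_rfl, ht.1⟩ ⟨ht.1, le_rfl⟩ ht.1
      simp only at h5
      rw [mul_zero, Real.exp_zero, one_mul, x00] at h5
      have h6 : Real.exp (11 / 10 * t) < 2 := by
        have h7 : Real.exp (11 / 10 * t) ≤ Real.exp (1 / 2) :=
          Real.exp_le_exp.2 (by linarith [ht.2])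
        have h8 : Real.exp (1 / 2 : ℝ) < 2 := by
          have h9 : Real.exp (1 / 2 : ℝ) ^ 2 = Real.exp 1 := by
            rw [← Real.exp_nat_mul]; norm_num
          have h10 := Real.exp_one_lt_d9
          have h11 := Real.exp_pos (1 / 2 : ℝ)
          nlinarith
        linarith
      have h7 := (hd t ht.1).2.2
      nlinarith
    refine ⟨1 / 10000, by norm_num, ?_, ?_⟩
    · have h5 := hw (1 / 10000) ⟨by norm_num, le_rfl⟩
      linarith
    · intro t ht
      have h5 := hw t ht
      have h6 := hz t ht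
      have h7 := ht.1
      linarith

end Q94.GD
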