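import Mathlib
import Pool.Agent.Q94.GD.Stm
import Pool.Agent.Q94.GD.K2
import Pool.Agent.Q94.GD.K4

/-!
# Job GD-5: transversality of exits
-/

set_option autoImplicit false
set_option linter.unusedVariables false

open Set Filter Topology

namespace Q94.GD

/-- A simple zero with positive derivative. -/
theorem slope_pos {f : ℝ → ℝ} {f' T : ℝ} (hf : HasDerivAt f f' T) (h0 : f T = 0) (hp : 0 < f') :
    ∃ δ > 0, (∀ s, T - δ < s → s < T → f s < 0) ∧ ∀ s, T < s → s < T + δ → 0 < f s := by
  have h1 := hasDerivAt_iff_tendsto_slope.1 hf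
  have h2 := h1.eventually (lt_mem_nhds hp)
  rw [eventually_nhdsWithin_iff, Metric.eventually_nhds_iff] at h2
  obtain ⟨δ, hδ, h3⟩ := h2
  refine ⟨δ, hδ, ?_, ?_⟩
  · intro s hs1 hs2
    have h4 := @h3 s (by rw [Real.dist_eq, abs_lt]; constructor <;> linarith) hs2.ne
    rw [slope_def_field, h0, sub_zero] at h4
    by_contra hc
    push Not at hc
    exact absurd h4 (not_lt.2 (div_nonpos_of_nonneg_of_nonpos hc (by linarith)))
  · intro s hs1 hs2
    have h4 := @h3 s (by rw [Real.dist_eq, abs_lt]; constructor <;> linarith) hs1.ne'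
    rw [slope_def_field, h0, sub_zero] at h4
    by_contra hc
    push Not at hc
    exact absurd h4 (not_lt.2 (div_nonpos_of_nonpos_of_nonneg hc (by linarith)))

/-- the value at the end of an interval of positivity -/
theorem nonneg_end {f : ℝ → ℝ} (hf : Continuous f) {T : ℝ} (hT : 0 < T)
    (h : ∀ s, 0 ≤ s → s < T → 0 < f s) : 0 ≤ f T := by
  have h1 : Tendsto f (𝓝[<] T) (𝓝 (f T)) := (hf.tendsto T).mono_left nhdsWithin_le_nhds
  refine ge_of_tendsto h1 ?_
  have h2 : Ioo 0 T ∈ 𝓝[<] T := Ioo_mem_nhdsLT hT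
  filter_upwards [h2] with s hs
  exact (h s hs.1.le hs.2).le

/-- the derivative at the end of an interval of positivity where the function vanishes -/
theorem deriv_end {f : ℝ → ℝ} {f' T : ℝ} (hf : HasDerivAt f f' T) (hT : 0 < T) (h0 : f T = 0)
    (h : ∀ s, 0 ≤ s → s < T → 0 < f s) : f' ≤ 0 := by
  by_contra hc
  push Not at hc
  obtain ⟨δ, hδ, h1, -⟩ := slope_pos hf h0 hc
  have h2 := h1 (max 0 (T - δ / 2)) (lt_max_of_lt_right (by linarith))
    (max_lt hT (by linarith))
  have h3 := h (max 0 (T - δ / 2)) (le_max_left _ _) (max_lt hT (by linarith))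
  linarith

/-- a second order condition: `f > 0` on `[0, T)`, `f T = f' T = 0`, then the derivative of `f'`
cannot be negative -/
theorem second_end {f f' : ℝ → ℝ} {f'' T : ℝ} (hf : ∀ t, HasDerivAt f (f' t) t) (hT : 0 < T)
    (h0 : f T = 0) (h1 : f' T = 0) {g : ℝ → ℝ} (hg : ∀ t, 0 ≤ t → t ≤ T → g t = f' t)
    (h2 : HasDerivAt g f'' T)
    (h : ∀ s, 0 ≤ s → s < T → 0 < f s) : 0 ≤ f'' := by
  by_contra hc
  push Not at hc
  obtain ⟨δ, hδ, h3, -⟩ := slope_pos (f := fun t => -g t) h2.neg
    (by show -g T = 0; rw [hg T hT.le le_rfl, h1, neg_zero]) (by linarith)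
  set a := max 0 (T - δ / 2) with ha
  have ha0 : 0 ≤ a := le_max_left _ _
  have haT : a < T := max_lt hT (by linarith)
  have haδ : T - δ < a := lt_max_of_lt_right (by linarith)
  have hmono : MonotoneOn f (Icc a T) := by
    apply monotoneOn_of_deriv_nonneg (convex_Icc a T)
    · exact fun t _ => (hf t).continuousAt.continuousWithinAt
    · exact fun t _ => (hf t).differentiableAt.differentiableWithinAt
    · intro t ht
      rw [interior_Icc] at ht
      rw [(hf t).deriv, ← hg t (ha0.trans ht.1.le) ht.2.le]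
      have := h3 t (haδ.trans ht.1) ht.2
      linarith
  have h4 := hmono ⟨le_rfl, haT.le⟩ ⟨haT.le, le_rfl⟩ haT.le
  have h5 := h a ha0 haT
  linarith

theorem j6 (h2 : J2) (h3 : J3) (h5 : J5) : J6 := by
  intro x hx htr hq0 hw0 hwz0 hup hdown
  by_contra hcon
  push Not at hcon
  obtain ⟨t, ht, hc⟩ := hcon
  have hh : h = 1 / 10000 := rfl
  have e36 : (36 : ℝ) / h = 360000 := by rw [hh]; norm_num
  have eh2 : h ^ 2 = 1 / 100000000 := by rw [hh]; norm_num
  have c0 := hx.cont 0
  have c1 := hx.cont 1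
  have c2 := hx.cont 2
  have c3 := hx.cont 3
  let S' : Set ℝ := {s | 0 ≤ s ∧ ¬ (0 < x s 2 ∧ x s 2 < x s 0)}
  have hopen : IsOpen {s | 0 < x s 2 ∧ x s 2 < x s 0} := by
    apply IsOpen.inter
    · exact isOpen_lt continuous_const c2
    · exact isOpen_lt c2 c0
  have hS : IsClosed S' := by
    apply IsClosed.inter (isClosed_le continuous_const continuous_id)
    exact hopen.isClosed_compl
  have hne : S'.Nonempty := ⟨t, ht, fun h => absurd h.2 (not_lt.2 (hc h.1))⟩
  have hbd : BddBelow S' := ⟨0, fun s hs => hs.1⟩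
  have hmem := hS.csInf_mem hne hbd
  set T := sInf S' with hT
  have hpos : 0 < T := by
    rcases eq_or_lt_of_le hmem.1 with h | h
    · rw [← h] at hmem
      exact absurd ⟨hw0, hwz0⟩ hmem.2
    · exact h
  have hlt : ∀ s, 0 ≤ s → s < T → 0 < x s 2 ∧ x s 2 < x s 0 := by
    intro s hs1 hs2
    by_contra hcc
    have : s ∈ S' := ⟨hs1, hcc⟩
    exact absurd (csInf_le hbd this) (not_le.2 hs2)
  have hwT : 0 ≤ x T 2 := nonneg_end c2 hpos fun s hs1 hs2 => (hlt s hs1 hs2).1
  have hzT : 0 ≤ x T 0 - x T 2 := nonneg_end (f := fun s => x s 0 - x s 2) (c0.sub c2) hpos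
    fun s hs1 hs2 => by have := (hlt s hs1 hs2).2; show 0 < x s 0 - x s 2; linarith
  -- the strip on the closed interval
  have hst : ∀ s ∈ Icc 0 T, 0 ≤ x s 2 ∧ x s 2 ≤ x s 0 := by
    intro s hs
    rcases eq_or_lt_of_le hs.2 with h | h
    · rw [h]
      exact ⟨hwT, by linarith⟩
    · have := hlt s hs.1 h
      exact ⟨this.1.le, this.2.le⟩
  have htrap : ∀ s, 0 ≤ s → Trap (x s) := fun s hs => h3 x hx htr s hs
  have hz2 : ∀ s, 0 ≤ s → x s 0 ≤ 151 / 100 ∧ x s 1 ≤ x s 0 ∧ -(11 / 10 * x s 0) ≤ x s 1 :=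
    fun s hs => h2 _ _ (htrap s hs).1.le (htrap s hs).2.le
  have hq : ∀ s ∈ Icc 0 T, |x s 3| < 360000 := by
    rw [← e36]
    refine h5 x hx hq0 T hpos.le ?_
    intro s hs
    have h6 := hst s hs
    have h7 := (hz2 s hs.1).1
    exact ⟨h6.1, by linarith [h6.2]⟩
  -- the field on the interval
  have hF0 : ∀ s, 0 ≤ s → F (x s) 0 = x s 1 := by
    intro s hs
    obtain ⟨a, b, ha, hb, f0, f1⟩ := trapF (htrap s hs).1.le (htrap s hs).2.le
    exact f0
  have hF2 : ∀ s ∈ Icc 0 T, F (x s) 2 = x s 3 := by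
    intro s hs
    rw [F2, e36]
    have := abs_lt.1 (hq s hs)
    exact cl_eq this.1.le this.2.le
  have hF3 : ∀ s ∈ Icc 0 T, F (x s) 3 = -x s 3 / 8 + S (x s 0) (x s 2) / h ^ 2 := by
    intro s hs
    show -(cl (-(36 / h)) (36 / h) (x s 3)) / 8 + S (cl 0 2 (x s 0)) (cl 0 2 (x s 2)) / h ^ 2 = _
    have h6 := hst s hs
    have h7 := (hz2 s hs.1).1
    have h8 := (htrap s hs.1).1
    have h9 := abs_lt.1 (hq s hs)
    rw [e36, cl_eq h9.1.le h9.2.le, cl_eq h8.le (by linarith), cl_eq h6.1 (by linarith [h6.2])]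
  have hTI : T ∈ Icc 0 T := ⟨hpos.le, le_rfl⟩
  have hzpos : 0 < x T 0 := (htrap T hpos.le).1
  have hz151 := (hz2 T hpos.le).1
  have hv1 := (hz2 T hpos.le).2.1
  have hv2 := (hz2 T hpos.le).2.2
  have d0 : ∀ t, HasDerivAt (fun t => x t 0) (F (x t) 0) t := hx.comp 0
  have d1 : ∀ t, HasDerivAt (fun t => x t 1) (F (x t) 1) t := hx.comp 1
  have d2 : ∀ t, HasDerivAt (fun t => x t 2) (F (x t) 2) t := hx.comp 2
  have d3 : ∀ t, HasDerivAt (fun t => x t 3) (F (x t) 3) t := hx.comp 3
  have ht0 : 0 ≤ th := by unfold th; positivity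
  have ht1 : th ≤ 2 / 10 ^ 8 := by
    unfold th
    rw [hh, div_le_iff₀ (by norm_num)]
    norm_num
  have hor : x T 2 = 0 ∨ x T 2 = x T 0 := by
    rcases eq_or_lt_of_le hwT with h | h
    · exact Or.inl h.symm
    · right
      by_contra hne2
      exact hmem.2 ⟨h, lt_of_le_of_ne (by linarith) hne2⟩
  rcases hor with hw | hw
  · -- exit below
    have hd := deriv_end (d2 T) hpos hw fun s hs1 hs2 => (hlt s hs1 hs2).1
    rw [hF2 T hTI] at hd
    rcases eq_or_lt_of_le hd with h | h
    · -- q T = 0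
      have h6 := second_end (f := fun t => x t 2) (g := fun t => x t 3) d2 hpos hw
        (by rw [hF2 T hTI, h]) (fun s hs1 hs2 => (hF2 s ⟨hs1, hs2⟩).symm) (d3 T)
        (fun s hs1 hs2 => (hlt s hs1 hs2).1)
      rw [hF3 T hTI, h, hw, eh2] at h6
      have h7 : S (x T 0) 0 < 0 := by
        unfold S
        have h8 : 0 < x T 0 * (2 - th * x T 0) := by
          apply mul_pos hzpos
          nlinarith
        nlinarith
      have e : -(0 : ℝ) / 8 + S (x T 0) 0 / (1 / 100000000 : ℝ) = 100000000 * S (x T 0) 0 := by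
        ring
      rw [e] at h6
      linarith
    · -- q T < 0
      obtain ⟨δ, hδ, -, h6⟩ := slope_pos (f := fun t => -x t 2) (d2 T).neg
        (by show -x T 2 = 0; rw [hw, neg_zero]) (by rw [hF2 T hTI]; linarith)
      -- `w < z` near `T`
      have h7 : ∀ᶠ s in 𝓝 T, x s 2 < x s 0 :=
        (c2.continuousAt).eventually_lt (c0.continuousAt) (by rw [hw]; exact hzpos)
      rw [Metric.eventually_nhds_iff] at h7
      obtain ⟨ε, hε, h8⟩ := h7
      apply hdown
      set u := T + min (δ / 2) (ε / 2) with hu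
      have hm1 : 0 < min (δ / 2) (ε / 2) := lt_min (by linarith) (by linarith)
      have hm2 := min_le_left (δ / 2) (ε / 2)
      have hm3 := min_le_right (δ / 2) (ε / 2)
      refine ⟨u, by linarith, ?_, ?_⟩
      · have := h6 u (by linarith) (by linarith)
        linarith
      · intro s hs
        rcases lt_or_ge s T with h9 | h9
        · exact (hlt s hs.1 h9).2
        · apply h8
          rw [Real.dist_eq, abs_lt]
          constructor
          · linarith
          · linarith [hs.2]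
  · -- exit above
    have du : ∀ t, HasDerivAt (fun t => x t 0 - x t 2) (F (x t) 0 - F (x t) 2) t :=
      fun t => (d0 t).sub (d2 t)
    have hupos : ∀ s, 0 ≤ s → s < T → 0 < x s 0 - x s 2 := fun s hs1 hs2 => by
      have := (hlt s hs1 hs2).2
      linarith
    have hu0 : x T 0 - x T 2 = 0 := by rw [hw]; ring
    have hd := deriv_end (du T) hpos hu0 hupos
    rw [hF2 T hTI, hF0 T hpos.le] at hd
    rcases eq_or_lt_of_le hd with h | h
    · -- q T = v T
      have h6 := second_end (f := fun t => x t 0 - x t 2) (g := fun t => x t 1 - x t 3) du hpos hu0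
        (by rw [hF2 T hTI, hF0 T hpos.le, h])
        (fun s hs1 hs2 => by show x s 1 - x s 3 = _; rw [hF2 s ⟨hs1, hs2⟩, hF0 s hs1])
        ((d1 T).sub (d3 T)) hupos
      obtain ⟨a, b, ha, hb, f0, f1⟩ := trapF (htrap T hpos.le).1.le (htrap T hpos.le).2.le
      have hqv : x T 3 = x T 1 := by linarith
      rw [hF3 T hTI, f1, hw, hqv, eh2] at h6
      have h7 : 19 / 10 * x T 0 ≤ S (x T 0) (x T 0) := by
        unfold S
        rw [eh2]
        have e1 : (1 - 1 / 100000000 * x T 0) * (4 * x T 0 - x T 0 * (2 - th * x T 0) *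
            (1 + 4 * (1 / 100000000) * x T 0)) = x T 0 * ((1 - 1 / 100000000 * x T 0) *
            (4 - (2 - th * x T 0) * (1 + 4 * (1 / 100000000) * x T 0))) := by ring
        rw [e1, mul_comm (19 / 10 : ℝ)]
        apply mul_le_mul_of_nonneg_left _ hzpos.le
        have h8 : 0 ≤ th * x T 0 := mul_nonneg ht0 hzpos.le
        have h9 : (2 - th * x T 0) * (1 + 4 * (1 / 100000000) * x T 0) ≤ 2 * (1 + 1 / 10000000) := by
          apply mul_le_mul
          · linarith
          · linarith
          · positivity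
          · norm_num
        have h10 : 199 / 100 ≤ 4 - (2 - th * x T 0) * (1 + 4 * (1 / 100000000) * x T 0) := by
          linarith
        have h11 : 99 / 100 ≤ 1 - 1 / 100000000 * x T 0 := by linarith
        nlinarith
      have e2 : -x T 1 / 8 + a * x T 1 - x T 0 * (x T 0 - 1) * (1 + b) -
          (-x T 1 / 8 + S (x T 0) (x T 0) / (1 / 100000000)) =
          a * x T 1 - x T 0 * ((x T 0 - 1) * (1 + b)) - 100000000 * S (x T 0) (x T 0) := by ring
      rw [e2] at h6
      have hv3 : |x T 1| ≤ 11 / 10 * x T 0 := abs_le.2 ⟨by linarith, by linarith⟩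
      have h8 : a * x T 1 ≤ x T 0 := by
        refine (le_abs_self _).trans ?_
        rw [abs_mul]
        have := mul_le_mul ha hv3 (abs_nonneg _) (by norm_num)
        linarith
      have h9 : -((x T 0 - 1) * (1 + b)) ≤ 2 := by
        obtain ⟨b1, b2⟩ := abs_le.1 hb
        nlinarith
      have h10 : -(x T 0 * ((x T 0 - 1) * (1 + b))) ≤ 2 * x T 0 := by nlinarith
      linarith
    · -- v T < q T
      obtain ⟨δ, hδ, -, h6⟩ := slope_pos (f := fun t => -(x t 0 - x t 2)) (du T).neg
        (by show -(x T 0 - x T 2) = 0; rw [hu0, neg_zero])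
        (by rw [hF2 T hTI, hF0 T hpos.le]; linarith)
      have h7 : ∀ᶠ s in 𝓝 T, 0 < x s 2 :=
        (continuousAt_const).eventually_lt (c2.continuousAt) (by rw [hw]; exact hzpos)
      rw [Metric.eventually_nhds_iff] at h7
      obtain ⟨ε, hε, h8⟩ := h7
      apply hup
      set u := T + min (δ / 2) (ε / 2) with hu
      have hm1 : 0 < min (δ / 2) (ε / 2) := lt_min (by linarith) (by linarith)
      have hm2 := min_le_left (δ / 2) (ε / 2)
      have hm3 := min_le_right (δ / 2) (ε / 2)
      refine ⟨u, by linarith, ?_, ?_⟩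
      · have := h6 u (by linarith) (by linarith)
        linarith
      · intro s hs
        rcases lt_or_ge s T with h9 | h9
        · exact (hlt s hs.1 h9).1
        · apply h8
          rw [Real.dist_eq, abs_lt]
          constructor
          · linarith
          · linarith [hs.2]

end Q94.GD
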