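import Mathlib
import Pool.Agent.Q94.GD.Stm
import Pool.Agent.Q94.GD.K2
import Pool.Agent.Q94.GD.K4

/-!
# Job GD-6: shooting by connectedness
-/

set_option autoImplicit false
set_option linter.unusedVariables false

open Set Filter Topology

namespace Q94.GD

theorem exits_disjoint {x : ℝ → E} (h1 : ExitUp x) (h2 : ExitDown x) : False := by
  obtain ⟨t1, ht1, a1, b1⟩ := h1
  obtain ⟨t2, ht2, a2, b2⟩ := h2
  rcases le_total t1 t2 with h | h
  · have := b2 t1 ⟨ht1.le, h⟩
    linarith
  · have := b1 t2 ⟨ht2.le, h⟩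
    linarith

theorem start_cont (ε : ℝ) : Continuous fun q : ℝ => Start ε q := by
  unfold Start
  apply continuous_pi
  intro i
  fin_cases i
  · exact continuous_const
  · exact continuous_const
  · exact continuous_const
  · exact continuous_id

theorem j8 (h1 : J1b) (h2 : J2) (h3 : J3) (h5 : J5) (h6 : J6) (h7 : J7) : J8 := by
  intro ε hε hε2
  have hh : h = 1 / 10000 := rfl
  obtain ⟨φ, f0, fS, -, fc⟩ := h1
  have hcont : ∀ i : Fin 4, Continuous fun p : ℝ × ℝ => φ p.1 (Start ε p.2) i := by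
    intro i
    have h8 : Continuous fun p : ℝ × ℝ => φ p.1 (Start ε p.2) :=
      fc.comp (continuous_fst.prodMk ((start_cont ε).comp continuous_snd))
    exact (continuous_apply i).comp h8
  let U : Set ℝ := {q | ExitUp fun t => φ t (Start ε q)}
  let W : Set ℝ := {q | ExitDown fun t => φ t (Start ε q)}
  have hU : IsOpen U := by
    rw [isOpen_iff_mem_nhds]
    rintro q ⟨t, ht, a1, b1⟩
    have e1 : ∀ᶠ q' in 𝓝 q, φ t (Start ε q') 0 < φ t (Start ε q') 2 := by
      have c0 : Continuous fun q' : ℝ => φ t (Start ε q') 0 :=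
        (hcont 0).comp (continuous_const.prodMk continuous_id)
      have c2 : Continuous fun q' : ℝ => φ t (Start ε q') 2 :=
        (hcont 2).comp (continuous_const.prodMk continuous_id)
      exact c0.continuousAt.eventually_lt c2.continuousAt a1
    have e2 : ∀ᶠ q' in 𝓝 q, ∀ τ ∈ Icc 0 t, 0 < φ τ (Start ε q') 2 := by
      apply isCompact_Icc.eventually_forall_of_forall_eventually
      intro τ hτ
      have c2 : Continuous fun p : ℝ × ℝ => φ p.2 (Start ε p.1) 2 :=
        (hcont 2).comp (continuous_snd.prodMk continuous_fst)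
      exact continuousAt_const.eventually_lt c2.continuousAt (b1 τ hτ)
    filter_upwards [e1, e2] with q' g1 g2
    exact ⟨t, ht, g1, g2⟩
  have hW : IsOpen W := by
    rw [isOpen_iff_mem_nhds]
    rintro q ⟨t, ht, a1, b1⟩
    have e1 : ∀ᶠ q' in 𝓝 q, φ t (Start ε q') 2 < 0 := by
      have c2 : Continuous fun q' : ℝ => φ t (Start ε q') 2 :=
        (hcont 2).comp (continuous_const.prodMk continuous_id)
      exact c2.continuousAt.eventually_lt continuousAt_const a1
    have e2 : ∀ᶠ q' in 𝓝 q, ∀ τ ∈ Icc 0 t, φ τ (Start ε q') 2 < φ τ (Start ε q') 0 := by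
      apply isCompact_Icc.eventually_forall_of_forall_eventually
      intro τ hτ
      have c0 : Continuous fun p : ℝ × ℝ => φ p.2 (Start ε p.1) 0 :=
        (hcont 0).comp (continuous_snd.prodMk continuous_fst)
      have c2 : Continuous fun p : ℝ × ℝ => φ p.2 (Start ε p.1) 2 :=
        (hcont 2).comp (continuous_snd.prodMk continuous_fst)
      exact c2.continuousAt.eventually_lt c0.continuousAt (b1 τ hτ)
    filter_upwards [e1, e2] with q' g1 g2
    exact ⟨t, ht, g1, g2⟩
  have h11 : (0 : ℝ) ≤ 11 / h := by rw [hh]; norm_num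
  have hmem : ∃ q ∈ Icc (-(11 / h)) (11 / h), q ∉ U ∧ q ∉ W := by
    by_contra hcon
    push Not at hcon
    have hpre : IsPreconnected (Icc (-(11 / h)) (11 / h)) := isPreconnected_Icc
    have h8 := hpre U W hU hW (fun q hq => by
      by_cases hqU : q ∈ U
      · exact Or.inl hqU
      · exact Or.inr (hcon q hq hqU))
      ⟨11 / h, ⟨by linarith, le_rfl⟩, (h7 ε hε hε2 _ (fS (Start ε (11 / h)))).1 (f0 _)⟩
      ⟨-(11 / h), ⟨le_rfl, by linarith⟩, (h7 ε hε hε2 _ (fS (Start ε (-(11 / h))))).2 (f0 _)⟩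
    obtain ⟨q, -, hq1, hq2⟩ := h8
    exact exits_disjoint hq1 hq2
  obtain ⟨q, hq, hqU, hqW⟩ := hmem
  have hqa : |q| ≤ 11 / h := abs_le.2 hq
  have htr : Trap (φ 0 (Start ε q)) := by
    rw [f0]
    exact start_trap hε hε2
  have hq12 : |φ 0 (Start ε q) 3| < 12 / h := by
    rw [f0]
    have e : Start ε q 3 = q := rfl
    rw [e]
    refine lt_of_le_of_lt hqa ?_
    rw [hh]
    norm_num
  have hin := h6 (fun t => φ t (Start ε q)) (fS _) htr hq12
    (by
      show 0 < φ 0 (Start ε q) 2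
      rw [f0]
      show 0 < ε / 2
      linarith)
    (by
      show φ 0 (Start ε q) 2 < φ 0 (Start ε q) 0
      rw [f0]
      show ε / 2 < ε
      linarith) hqU hqW
  refine ⟨fun t => φ t (Start ε q), fS _, ⟨q, hqa, f0 _⟩, ?_⟩
  intro t ht
  have htt : ∀ s, 0 ≤ s → Trap (φ s (Start ε q)) := fun s hs => h3 _ (fS _) htr s hs
  refine ⟨htt t ht, (hin t ht).1, (hin t ht).2, ?_⟩
  refine h5 (fun t => φ t (Start ε q)) (fS _) hq12 t ht ?_ t ⟨ht, le_rfl⟩
  intro s hs
  have g1 := hin s hs.1
  have g2 := (h2 _ _ (htt s hs.1).1.le (htt s hs.1).2.le).1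
  exact ⟨g1.1.le, by linarith [g1.2]⟩

end Q94.GD
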