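import Mathlib
import Pool.Agent.Q94.GD.Stm
import Pool.Agent.Q94.GD.K2

/-!
# Job GD-7: the hitting time of `z = 1`
-/

set_option autoImplicit false
set_option linter.unusedVariables false

open Set Filter Topology

namespace Q94.GD

theorem j9 (h2 : J2) (h4 : J4) : J9 := by
  intro ε x hε hε2 hG
  obtain ⟨hx, ⟨q, hq, hs⟩, hall⟩ := hG
  have c0 := hx.cont 0
  have z0 : x 0 0 = ε := by rw [hs]; rfl
  have v0 : x 0 1 = 3 * ε / 4 := by rw [hs]; rfl
  have htrap : ∀ t, 0 ≤ t → Trap (x t) := fun t ht => (hall t ht).1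
  have hphi0 : phi (x 0 0) < x 0 1 := by
    rw [z0, v0]
    unfold phi
    nlinarith
  have hd : ∀ t, 0 ≤ t → HasDerivAt (fun t => x t 0) (x t 1) t := by
    intro t ht
    obtain ⟨g1, g2⟩ := htrap t ht
    obtain ⟨a, b, ha, hb, f0, f1⟩ := trapF g1.le g2.le
    have d0 := hx.comp 0 t
    rwa [f0] at d0
  have hvz : ∀ t, 0 ≤ t → x t 1 ≤ x t 0 := by
    intro t ht
    obtain ⟨g1, g2⟩ := htrap t ht
    exact (h2 _ _ g1.le g2.le).2.1
  -- the curve reaches one
  have hex : ∃ t, 0 ≤ t ∧ 1 ≤ x t 0 := by
    by_contra hcon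
    push Not at hcon
    have hphi : ∀ t, 0 ≤ t → phi (x t 0) < x t 1 := by
      intro t ht
      exact h4 x hx (htrap 0 le_rfl) hphi0 t ht (fun s hs => (hcon s hs.1).le) t ⟨ht, le_rfl⟩
    set T := 4 * Real.log (1 / ε) with hT
    have hT0 : 0 ≤ T := by
      have : 0 ≤ Real.log (1 / ε) := Real.log_nonneg (by
        rw [le_div_iff₀ hε]; linarith)
      positivity
    have hmono : MonotoneOn (fun t => Real.exp (-t / 4) * x t 0) (Icc 0 T) := by
      have hder : ∀ t, 0 ≤ t → HasDerivAt (fun t => Real.exp (-t / 4) * x t 0)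
          (Real.exp (-t / 4) * (-1 / 4) * x t 0 + Real.exp (-t / 4) * x t 1) t := by
        intro t ht
        have dE : HasDerivAt (fun s : ℝ => Real.exp (-s / 4)) (Real.exp (-t / 4) * (-1 / 4)) t :=
          (((hasDerivAt_id t).neg).div_const 4).exp
        exact dE.mul (hd t ht)
      apply monotoneOn_of_deriv_nonneg (convex_Icc 0 T)
      · apply Continuous.continuousOn
        fun_prop
      · intro t ht
        rw [interior_Icc] at ht
        exact (hder t ht.1.le).differentiableAt.differentiableWithinAt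
      · intro t ht
        rw [interior_Icc] at ht
        rw [(hder t ht.1.le).deriv]
        have h5 := hphi t ht.1.le
        have h6 := (htrap t ht.1.le).1
        have h7 := hcon t ht.1.le
        have h8 : x t 0 / 4 ≤ x t 1 := by
          unfold phi at h5
          nlinarith
        have h9 := Real.exp_pos (-t / 4)
        nlinarith
    have h5 := hmono ⟨le_rfl, hT0⟩ ⟨hT0, le_rfl⟩ hT0
    simp only at h5
    have h6 : Real.exp (-T / 4) = ε := by
      have : -T / 4 = Real.log ε := by
        rw [hT, one_div, Real.log_inv]; ring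
      rw [this, Real.exp_log hε]
    rw [h6, z0] at h5
    have h7 : Real.exp (-(0 : ℝ) / 4) = 1 := by norm_num
    rw [h7] at h5
    have h8 := hcon T hT0
    nlinarith
  -- the first time
  obtain ⟨t, ht, hc⟩ := hex
  let S : Set ℝ := {s | 0 ≤ s ∧ 1 ≤ x s 0}
  have hS : IsClosed S := by
    apply IsClosed.inter (isClosed_le continuous_const continuous_id)
    exact isClosed_le continuous_const c0
  have hne : S.Nonempty := ⟨t, ht, hc⟩
  have hbd : BddBelow S := ⟨0, fun s hs => hs.1⟩
  have hmem := hS.csInf_mem hne hbd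
  set T := sInf S with hT
  have hpos : 0 < T := by
    rcases eq_or_lt_of_le hmem.1 with h | h
    · rw [← h] at hmem
      have h5 : 1 ≤ x 0 0 := hmem.2
      rw [z0] at h5
      linarith
    · exact h
  have hlt : ∀ s, 0 ≤ s → s < T → x s 0 < 1 := by
    intro s hs1 hs2
    by_contra hcc
    push Not at hcc
    have : s ∈ S := ⟨hs1, hcc⟩
    exact absurd (csInf_le hbd this) (not_le.2 hs2)
  have hT1 : x T 0 = 1 := by
    apply le_antisymm _ hmem.2
    have h1 : Tendsto (fun t => x t 0) (𝓝[<] T) (𝓝 (x T 0)) :=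
      (c0.tendsto T).mono_left nhdsWithin_le_nhds
    refine le_of_tendsto h1 ?_
    have h2 : Ioo 0 T ∈ 𝓝[<] T := Ioo_mem_nhdsLT hpos
    filter_upwards [h2] with s hs
    exact (hlt s hs.1.le hs.2).le
  have hle : ∀ s ∈ Icc 0 T, x s 0 ≤ 1 := by
    intro s hs
    rcases eq_or_lt_of_le hs.2 with h | h
    · rw [h, hT1]
    · exact (hlt s hs.1 h).le
  refine ⟨T, hpos.le, ?_, hT1, fun s hs => ⟨hle s hs, ?_⟩⟩
  · have hanti : AntitoneOn (fun t => Real.exp (-t) * x t 0) (Icc 0 T) := by
      have hder : ∀ t, 0 ≤ t → HasDerivAt (fun t => Real.exp (-t) * x t 0)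
          (Real.exp (-t) * (-1) * x t 0 + Real.exp (-t) * x t 1) t := by
        intro t ht
        have dE : HasDerivAt (fun s : ℝ => Real.exp (-s)) (Real.exp (-t) * (-1)) t :=
          ((hasDerivAt_id t).neg).exp
        exact dE.mul (hd t ht)
      apply antitoneOn_of_deriv_nonpos (convex_Icc 0 T)
      · apply Continuous.continuousOn
        fun_prop
      · intro t ht
        rw [interior_Icc] at ht
        exact (hder t ht.1.le).differentiableAt.differentiableWithinAt
      · intro t ht
        rw [interior_Icc] at ht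
        rw [(hder t ht.1.le).deriv]
        have h5 := hvz t ht.1.le
        have h9 := Real.exp_pos (-t)
        nlinarith
    have h5 := hanti ⟨le_rfl, hpos.le⟩ ⟨hpos.le, le_rfl⟩ hpos.le
    simp only at h5
    rw [hT1, z0, neg_zero, Real.exp_zero, mul_one, one_mul] at h5
    have h6 := Real.log_le_log (Real.exp_pos _) h5
    rw [Real.log_exp] at h6
    rw [one_div, Real.log_inv]
    linarith
  · exact (h4 x hx (htrap 0 le_rfl) hphi0 T hpos.le hle s hs).le

end Q94.GD
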