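import Pool.Agent.Q94.GD.Stm

open Set Filter Topology

namespace Q94.GD

lemma sol_unique {K : NNReal} (hK : LipschitzWith K F) {x y : ℝ → E} (hx : Sol x) (hy : Sol y)
    (h0 : x 0 = y 0) : x = y :=
  ODE_solution_unique_univ (v := fun _ => F) (s := fun _ => univ) (K := K) (t₀ := 0)
    (fun _ => hK.lipschitzOnWith) (fun t => ⟨hx t, trivial⟩) (fun t => ⟨hy t, trivial⟩) h0

lemma closed_C : IsClosed {p : E | 0 ≤ p 0 ∧ V (p 0) (p 1) ≤ 0 ∧ 0 ≤ p 2 ∧ p 2 ≤ p 0 ∧
    |p 3| ≤ 36 / h} := by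
  have c : ∀ i : Fin 4, Continuous fun p : E => p i := fun i => continuous_apply i
  have h1 : IsClosed {p : E | 0 ≤ p 0} := isClosed_le continuous_const (c 0)
  have h2 : IsClosed {p : E | V (p 0) (p 1) ≤ 0} := by
    have := c 0; have := c 1
    unfold V
    exact isClosed_le (by fun_prop) continuous_const
  have h3 : IsClosed {p : E | 0 ≤ p 2} := isClosed_le continuous_const (c 2)
  have h4 : IsClosed {p : E | p 2 ≤ p 0} := isClosed_le (c 2) (c 0)
  have h5 : IsClosed {p : E | |p 3| ≤ 36 / h} := isClosed_le (c 3).abs continuous_const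
  exact h1.inter (h2.inter (h3.inter (h4.inter h5)))

lemma closed_D : IsClosed {p : E | p 0 ≤ 1 ∧ phi (p 0) ≤ p 1} := by
  have c : ∀ i : Fin 4, Continuous fun p : E => p i := fun i => continuous_apply i
  have h1 : IsClosed {p : E | p 0 ≤ 1} := isClosed_le (c 0) continuous_const
  have h2 : IsClosed {p : E | phi (p 0) ≤ p 1} := by
    have := c 0; have := c 1
    unfold phi
    exact isClosed_le (by fun_prop) (c 1)
  exact h1.inter h2

theorem j10 (h1a : J1a) (h1 : J1b) (h2 : J2) (h8 : J8) (h9 : J9) : J10 := by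
  obtain ⟨K, M, hK, hM⟩ := h1a
  obtain ⟨φ, φ0, φsol, φadd, φc⟩ := h1
  have hε : ∀ k : ℕ, 0 < 1 / ((k : ℝ) + 2) ∧ 1 / ((k : ℝ) + 2) ≤ 1 / 2 := by
    intro k
    refine ⟨by positivity, ?_⟩
    apply one_div_le_one_div_of_le (by norm_num)
    have : (0 : ℝ) ≤ k := Nat.cast_nonneg k
    linarith
  choose x hx using fun k : ℕ => h8 (1 / ((k : ℝ) + 2)) (hε k).1 (hε k).2
  choose T hT0 hTlog hT1 hTD using fun k : ℕ => h9 (1 / ((k : ℝ) + 2)) (x k) (hε k).1 (hε k).2 (hx k)
  have hxφ : ∀ k t, x k t = φ t (x k 0) := by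
    intro k t
    have := sol_unique hK (hx k).1 (φsol (x k 0)) (by simp only [φ0])
    exact congrFun this t
  have hshift : ∀ k t, φ t (x k (T k)) = x k (t + T k) := by
    intro k t
    rw [hxφ k (T k), ← φadd, ← hxφ]
  have hTtop : Tendsto T atTop atTop := by
    have h3 : Tendsto (fun k : ℕ => Real.log (1 / (1 / ((k : ℝ) + 2)))) atTop atTop := by
      have h4 : Tendsto (fun k : ℕ => (k : ℝ) + 2) atTop atTop :=
        tendsto_atTop_add_const_right _ _ tendsto_natCast_atTop_atTop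
      have := Real.tendsto_log_atTop.comp h4
      simpa [Function.comp_def] using this
    exact tendsto_atTop_mono hTlog h3
  have hCmem : ∀ k t, 0 ≤ t → x k t ∈ {p : E | 0 ≤ p 0 ∧ V (p 0) (p 1) ≤ 0 ∧ 0 ≤ p 2 ∧
      p 2 ≤ p 0 ∧ |p 3| ≤ 36 / h} := by
    intro k t ht
    obtain ⟨a, b, c, d⟩ := (hx k).2.2 t ht
    exact ⟨a.1.le, a.2.le, b.le, c.le, d.le⟩
  have hball : ∀ k, x k (T k) ∈ Metric.closedBall (0 : E) (36 / h) := by
    intro k
    obtain ⟨a, b, c, d, e⟩ := hCmem k (T k) (hT0 k)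
    obtain ⟨f, g, i⟩ := h2 _ _ a b
    have hh : (36 : ℝ) / h = 360000 := by unfold h; norm_num
    rw [mem_closedBall_zero_iff, pi_norm_le_iff_of_nonneg (by rw [hh]; norm_num)]
    intro j
    rw [hh] at e ⊢
    fin_cases j
    · show |x k (T k) 0| ≤ 360000
      rw [abs_le]; constructor <;> linarith
    · show |x k (T k) 1| ≤ 360000
      rw [abs_le]; constructor <;> linarith
    · show |x k (T k) 2| ≤ 360000
      rw [abs_le]; constructor <;> linarith
    · exact e
  obtain ⟨a, _, ψ, hψ, hlim⟩ := (isCompact_closedBall (0 : E) (36 / h)).tendsto_subseq hball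
  have hconv : ∀ t, Tendsto (fun k => x (ψ k) (t + T (ψ k))) atTop (𝓝 (φ t a)) := by
    intro t
    have h3 : Continuous (φ t) := φc.comp (Continuous.prodMk_right t)
    have h4 := (h3.tendsto a).comp hlim
    refine h4.congr fun k => ?_
    exact hshift (ψ k) t
  have hTψ : Tendsto (fun k => T (ψ k)) atTop atTop := hTtop.comp hψ.tendsto_atTop
  refine ⟨fun t => φ t a, φsol a, ?_, ?_, ?_⟩
  · have h3 := hconv 0
    have h4 : Tendsto (fun k => x (ψ k) (0 + T (ψ k)) 0) atTop (𝓝 (φ 0 a 0)) :=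
      ((continuous_apply 0).tendsto _).comp h3
    have h5 : (fun k => x (ψ k) (0 + T (ψ k)) 0) = fun _ => (1 : ℝ) := by
      funext k
      rw [zero_add, hT1]
    rw [h5] at h4
    exact (tendsto_nhds_unique h4 tendsto_const_nhds)
  · intro t
    refine closed_C.mem_of_tendsto (hconv t) ?_
    filter_upwards [hTψ.eventually_ge_atTop (-t)] with k hk
    exact hCmem _ _ (by linarith)
  · intro t ht
    refine closed_D.mem_of_tendsto (hconv t) ?_
    filter_upwards [hTψ.eventually_ge_atTop (-t)] with k hk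
    exact hTD (ψ k) _ ⟨by linarith, by linarith⟩

end Q94.GD
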