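import Pool.Agent.Q94.GD.Stm

open Set Filter Topology

namespace Q94.GD

lemma cl_eq {a b x : ℝ} (h1 : a ≤ x) (h2 : x ≤ b) : cl a b x = x := by
  unfold cl; rw [min_eq_right h2, max_eq_right h1]

lemma h_pos : (0 : ℝ) < h := by unfold h; norm_num

lemma box_eq {x : E} (h0 : 0 ≤ x 0) (h0' : x 0 ≤ 2) (h1 : -2 ≤ x 1) (h1' : x 1 ≤ 2)
    (h2 : 0 ≤ x 2) (h2' : x 2 ≤ 2) (h3 : |x 3| ≤ 36 / h) : box x = x := by
  unfold box
  rw [cl_eq h0 h0', cl_eq h1 h1', cl_eq h2 h2', cl_eq (abs_le.1 h3).1 (abs_le.1 h3).2]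
  ext i; fin_cases i <;> rfl

theorem j11a (h2 : J2) : J11a := by
  intro x hx t
  obtain ⟨_, _, hx3, _⟩ := hx
  obtain ⟨a, b, c, d, e⟩ := hx3 t
  obtain ⟨f, g, i⟩ := h2 _ _ a b
  unfold F
  rw [box_eq a (by linarith) (by linarith) (by linarith) c (by linarith) e]

lemma sol_comp {x : ℝ → E} (hx : Sol x) (t : ℝ) :
    HasDerivAt (fun s => x s 0) (F (x t) 0) t ∧ HasDerivAt (fun s => x s 1) (F (x t) 1) t ∧
    HasDerivAt (fun s => x s 2) (F (x t) 2) t ∧ HasDerivAt (fun s => x s 3) (F (x t) 3) t := by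
  have := hasDerivAt_pi.1 (hx t)
  exact ⟨this 0, this 1, this 2, this 3⟩

lemma lim_comp {x : ℝ → E} (hx : Lim x) (hG : ∀ t, F (x t) = G (x t)) (t : ℝ) :
    HasDerivAt (fun s => x s 0) (x t 1) t ∧
    HasDerivAt (fun s => x s 1) (-x t 1 / 8 + A (x t 2) (x t 3) * x t 1 - B (x t 0) (x t 2)) t ∧
    HasDerivAt (fun s => x s 2) (x t 3) t ∧
    HasDerivAt (fun s => x s 3) (-x t 3 / 8 + S (x t 0) (x t 2) / h ^ 2) t := by
  obtain ⟨a, b, c, d⟩ := sol_comp hx.1 t
  rw [hG t] at a b c d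
  exact ⟨a, b, c, d⟩

theorem j11b (h2 : J2) : J11b := by
  intro x hx
  have hG := j11a h2 x hx
  have hd : ∀ t, HasDerivAt (fun s => x s 0) (x t 1) t := fun t => (lim_comp hx hG t).1
  have hexp : ∀ t, t ≤ 0 → x t 0 ≤ Real.exp (t / 4) := by
    intro t ht
    have hmono : MonotoneOn (fun s => x s 0 * Real.exp (-(s / 4))) (Iic 0) := by
      have hder : ∀ s, HasDerivAt (fun s => x s 0 * Real.exp (-(s / 4)))
          (x s 1 * Real.exp (-(s / 4)) + x s 0 * (Real.exp (-(s / 4)) * (-(1 / 4)))) s := by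
        intro s
        have h1 : HasDerivAt (fun s : ℝ => -(s / 4)) (-(1 / 4)) s :=
          ((hasDerivAt_id s).div_const 4).neg
        exact (hd s).mul h1.exp
      apply monotoneOn_of_deriv_nonneg (convex_Iic 0)
      · exact fun s _ => (hder s).continuousAt.continuousWithinAt
      · exact fun s _ => (hder s).differentiableAt.differentiableWithinAt
      · intro s hs
        rw [interior_Iic] at hs
        rw [(hder s).deriv]
        obtain ⟨h5, h6⟩ := hx.2.2.2 s (le_of_lt hs)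
        obtain ⟨h7, _⟩ := hx.2.2.1 s
        have h8 : x s 0 / 4 ≤ x s 1 := by
          unfold phi at h6; nlinarith
        have := Real.exp_pos (-(s / 4))
        nlinarith
    have := hmono (mem_Iic.2 ht) (mem_Iic.2 le_rfl) ht
    simp only [hx.2.1, zero_div, neg_zero, Real.exp_zero, mul_one] at this
    have he := Real.exp_pos (t / 4)
    have h9 : Real.exp (-(t / 4)) * Real.exp (t / 4) = 1 := by
      rw [← Real.exp_add]; simp
    calc x t 0 = x t 0 * Real.exp (-(t / 4)) * Real.exp (t / 4) := by rw [mul_assoc, h9, mul_one]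
      _ ≤ 1 * Real.exp (t / 4) := by gcongr
      _ = _ := one_mul _
  have hlim : Tendsto (fun t : ℝ => Real.exp (t / 4)) atBot (𝓝 0) :=
    Real.tendsto_exp_atBot.comp (tendsto_id.atBot_div_const (by norm_num))
  have ht0 : Tendsto (fun t => x t 0) atBot (𝓝 0) := by
    refine squeeze_zero' (Eventually.of_forall fun t => (hx.2.2.1 t).1) ?_ hlim
    filter_upwards [Iic_mem_atBot (0 : ℝ)] with t ht using hexp t ht
  refine ⟨ht0, ?_⟩
  exact squeeze_zero (fun t => (hx.2.2.1 t).2.2.1) (fun t => (hx.2.2.1 t).2.2.2.1) ht0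

lemma A_le {w q : ℝ} (_hw : 0 ≤ w) (hw2 : w ≤ 2) (hq : |q| ≤ 36 / h) : |A w q| ≤ 73 / 10000 := by
  have hh : h = 1 / 10000 := rfl
  unfold A
  rw [hh] at hq ⊢
  rw [abs_div, abs_of_pos (a := 1 - (1 / 10000 : ℝ) ^ 2 * w) (by nlinarith), div_le_iff₀ (by nlinarith),
    abs_mul]
  have : |(2 : ℝ) * (1 / 10000) ^ 2| = 2 * (1 / 10000) ^ 2 := abs_of_pos (by norm_num)
  rw [this]
  norm_num at hq ⊢
  nlinarith

theorem j11c (h2 : J2) : J11c := by
  intro x hx hmono
  have hG := j11a h2 x hx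
  have hd : ∀ t, HasDerivAt (fun s => x s 0) (x t 1) t := fun t => (lim_comp hx hG t).1
  have hd1 := fun t => (lim_comp hx hG t).2.1
  have hv : ∀ t, 0 ≤ x t 1 := by
    intro t
    have := hmono.deriv_nonneg (x := t)
    rwa [(hd t).deriv] at this
  -- some time with z > 1
  obtain ⟨t1, ht1⟩ : ∃ t1, 1 < x t1 0 := by
    by_contra hcon
    push Not at hcon
    have h0 : IsLocalMax (fun s => x s 0) 0 := by
      refine Eventually.of_forall fun s => ?_
      simp only [hx.2.1]; exact hcon s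
    have h1 := h0.hasDerivAt_eq_zero (hd 0)
    have h3 := (hx.2.2.2 0 le_rfl).2
    rw [hx.2.1, h1] at h3
    unfold phi at h3
    norm_num at h3
  set a : ℝ := (x t1 0 - 1) / 2 with ha
  have ha0 : 0 < a := by rw [ha]; linarith
  have hB : ∀ t, t1 ≤ t → a ≤ B (x t 0) (x t 2) := by
    intro t ht
    have h1 : x t1 0 ≤ x t 0 := hmono ht
    obtain ⟨b, c, d, e, f⟩ := hx.2.2.1 t
    have h3 := (h2 _ _ b c).1
    have hth : 0 < th ∧ th ≤ 1 / 100 := by
      unfold th h; norm_num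
    have h4 : 1 ≤ (1 + 4 * h ^ 2 * x t 2) := by
      have : 0 ≤ 4 * h ^ 2 * x t 2 := by positivity
      linarith
    have h5 : 1 / 2 ≤ x t 0 * (1 - th * x t 0) := by
      have h8 : 98 / 100 ≤ 1 - th * x t 0 := by nlinarith [hth.1, hth.2]
      nlinarith
    have h6 : 1 / 2 ≤ (1 + 4 * h ^ 2 * x t 2) * (x t 0 * (1 - th * x t 0)) := by nlinarith
    have h7 : 0 ≤ x t 0 - 1 := by linarith
    unfold B
    calc a ≤ 1 / 2 * (x t 0 - 1) := by rw [ha]; linarith
      _ ≤ (1 + 4 * h ^ 2 * x t 2) * (x t 0 * (1 - th * x t 0)) * (x t 0 - 1) := by gcongr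
      _ = _ := by ring
  have hv' : ∀ t, t1 ≤ t →
      -x t 1 / 8 + A (x t 2) (x t 3) * x t 1 - B (x t 0) (x t 2) ≤ -a := by
    intro t ht
    obtain ⟨b, c, d, e, f⟩ := hx.2.2.1 t
    have h3 := (h2 _ _ b c).1
    have h4 := (abs_le.1 (A_le d (by linarith) f)).2
    have h5 := hB t ht
    have h6 := hv t
    nlinarith
  -- v decreases linearly
  have hlin : ∀ t, t1 ≤ t → x t 1 ≤ x t1 1 - a * (t - t1) := by
    intro t ht
    have hanti : AntitoneOn (fun s => x s 1 + a * s) (Ici t1) := by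
      have hder : ∀ s, HasDerivAt (fun s => x s 1 + a * s)
          ((-x s 1 / 8 + A (x s 2) (x s 3) * x s 1 - B (x s 0) (x s 2)) + a * 1) s := fun s =>
        (hd1 s).add ((hasDerivAt_id s).const_mul a)
      apply antitoneOn_of_deriv_nonpos (convex_Ici t1)
      · exact fun s _ => (hder s).continuousAt.continuousWithinAt
      · exact fun s _ => (hder s).differentiableAt.differentiableWithinAt
      · intro s hs
        rw [interior_Ici] at hs
        rw [(hder s).deriv]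
        have := hv' s (le_of_lt hs)
        linarith
    have := hanti (mem_Ici.2 le_rfl) (mem_Ici.2 ht) ht
    simp only at this
    linarith
  have h9 := hlin (t1 + (x t1 1 + 1) / a) (by
    have := hv t1
    have : 0 ≤ (x t1 1 + 1) / a := by positivity
    linarith)
  have h10 := hv (t1 + (x t1 1 + 1) / a)
  have h11 : a * (t1 + (x t1 1 + 1) / a - t1) = x t1 1 + 1 := by
    field_simp
    ring
  linarith

end Q94.GD
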